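import Mathlib

set_option autoImplicit false

/-!
General lemmas: gluing order isomorphisms, and index orders (initial ordinals of regular
cardinals).
-/

namespace Pool.Agent.Lib.Pe86704

open Cardinal Set

universe u v

section Glue

variable {α : Type u} {β : Type v} [LinearOrder α] [LinearOrder β]

/-- Glue two order isomorphisms along a point. -/
theorem glue {x : α} {x' : β} (e₁ : {z // z < x} ≃o {z // z < x'})
    (e₂ : {z // x < z} ≃o {z // x' < z}) :
    ∃ σ : α ≃o β, σ x = x' ∧ (∀ z (h : z < x), σ z = (e₁ ⟨z, h⟩).1) ∧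
      (∀ z (h : x < z), σ z = (e₂ ⟨z, h⟩).1) := by
  classical
  let F : α → β := fun z =>
    if h : z < x then (e₁ ⟨z, h⟩).1 else if h' : x < z then (e₂ ⟨z, h'⟩).1 else x'
  have F1 : ∀ z (h : z < x), F z = (e₁ ⟨z, h⟩).1 := fun z h => by simp [F, h]
  have F2 : ∀ z (h : x < z), F z = (e₂ ⟨z, h⟩).1 := fun z h => by
    simp [F, h, not_lt.mpr h.le]
  have F0 : F x = x' := by simp [F]
  have hmono : StrictMono F := by
    intro a b hab
    rcases lt_trichotomy b x with hb | hb | hb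
    · have ha : a < x := hab.trans hb
      rw [F1 a ha, F1 b hb]
      exact e₁.strictMono (show (⟨a, ha⟩ : {z // z < x}) < ⟨b, hb⟩ from hab)
    · subst hb
      rw [F0, F1 a hab]
      exact (e₁ ⟨a, hab⟩).2
    · rw [F2 b hb]
      rcases lt_trichotomy a x with ha | ha | ha
      · rw [F1 a ha]
        exact (e₁ ⟨a, ha⟩).2.trans (e₂ ⟨b, hb⟩).2
      · subst ha
        rw [F0]
        exact (e₂ ⟨b, hb⟩).2
      · rw [F2 a ha]
        exact e₂.strictMono (show (⟨a, ha⟩ : {z // x < z}) < ⟨b, hb⟩ from hab)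
  have hsurj : Function.Surjective F := by
    intro y
    rcases lt_trichotomy y x' with hy | hy | hy
    · refine ⟨(e₁.symm ⟨y, hy⟩).1, ?_⟩
      rw [F1 _ (e₁.symm ⟨y, hy⟩).2]
      simp
    · exact ⟨x, by rw [F0, hy]⟩
    · refine ⟨(e₂.symm ⟨y, hy⟩).1, ?_⟩
      rw [F2 _ (e₂.symm ⟨y, hy⟩).2]
      simp
  refine ⟨hmono.orderIsoOfSurjective F hsurj, ?_, ?_, ?_⟩
  · simpa using F0
  · intro z h; simpa using F1 z h
  · intro z h; simpa using F2 z h

/-- Restrict an order isomorphism to lower parts. -/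
theorem restrict_lt (σ : α ≃o β) (x : α) : Nonempty ({z // z < x} ≃o {z // z < σ x}) := by
  refine ⟨⟨⟨fun z => ⟨σ z.1, σ.strictMono z.2⟩, fun z => ⟨σ.symm z.1, ?_⟩, ?_, ?_⟩, ?_⟩⟩
  · have := σ.symm.strictMono z.2
    simpa using this
  · intro z; simp
  · intro z; simp
  · intro a b; simp [← Subtype.coe_le_coe]

theorem restrict_gt (σ : α ≃o β) (x : α) : Nonempty ({z // x < z} ≃o {z // σ x < z}) := by
  refine ⟨⟨⟨fun z => ⟨σ z.1, σ.strictMono z.2⟩, fun z => ⟨σ.symm z.1, ?_⟩, ?_, ?_⟩, ?_⟩⟩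
  · have := σ.symm.strictMono z.2
    simpa using this
  · intro z; simp
  · intro z; simp
  · intro a b; simp [← Subtype.coe_le_coe]

end Glue

/-- Index orders: infinite, well ordered, with small initial segments, in which small sets are
bounded. -/
structure Idx (ι : Type u) [LinearOrder ι] [WellFoundedLT ι] : Prop where
  inf : ℵ₀ ≤ #ι
  small : ∀ i : ι, #(Iio i) < #ι
  bdd : ∀ S : Set ι, #S < #ι → ∃ b, ∀ s ∈ S, s < b

section Idx

variable {ι : Type u} [LinearOrder ι] [WellFoundedLT ι]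

theorem Idx.unique (hι : Idx ι) {P : Type u} [LinearOrder P] [WellFoundedLT P]
    (h1 : #P = #ι) (h2 : ∀ p : P, #(Iio p) < #ι) : Nonempty (P ≃o ι) := by
  rcases InitialSeg.total (fun a b : P => a < b) (fun a b : ι => a < b) with f | f
  · rcases f.principalSumRelIso with g | g
    · exfalso
      obtain ⟨a, ha⟩ := (⟨g.top, g.mem_range_iff_rel'⟩ : ∃ a, ∀ b, b ∈ Set.range g ↔ b < a)
      have h3 : #(Set.range g) = #P := mk_range_eq g g.injective
      have h4 : Set.range g = Iio a := by ext b; exact ha b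
      rw [h4, h1] at h3
      exact absurd (hι.small a) (by rw [h3]; exact lt_irrefl _)
    · exact ⟨OrderIso.ofRelIsoLT g⟩
  · rcases f.principalSumRelIso with g | g
    · exfalso
      obtain ⟨a, ha⟩ := (⟨g.top, g.mem_range_iff_rel'⟩ : ∃ a, ∀ b, b ∈ Set.range g ↔ b < a)
      have h3 : #(Set.range g) = #ι := mk_range_eq g g.injective
      have h4 : Set.range g = Iio a := by ext b; exact ha b
      rw [h4] at h3
      exact absurd (h2 a) (by rw [h3]; exact lt_irrefl _)
    · exact ⟨(OrderIso.ofRelIsoLT g).symm⟩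

theorem Idx.small_le (hι : Idx ι) (i : ι) : #(Iic i) < #ι := by
  have : (Iic i : Set ι) = Iio i ∪ {i} := by
    ext x; simp [le_iff_lt_or_eq]
  rw [this]
  refine lt_of_le_of_lt (mk_union_le _ _) (add_lt_of_lt hι.inf (hι.small i) ?_)
  rw [mk_singleton]
  exact one_lt_aleph0.trans_le hι.inf

theorem Idx.mk_Ioi (hι : Idx ι) (i : ι) : #(Ioi i) = #ι := by
  refine le_antisymm (mk_set_le _) ?_
  by_contra h
  push Not at h
  have h1 : (Set.univ : Set ι) = Iic i ∪ Ioi i := by
    ext x; simp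
  have h2 : #(Set.univ : Set ι) < #ι := by
    rw [h1]
    exact lt_of_le_of_lt (mk_union_le _ _) (add_lt_of_lt hι.inf (hι.small_le i) h)
  rw [mk_univ] at h2
  exact lt_irrefl _ h2

theorem Idx.exists_gt (hι : Idx ι) (i : ι) : ∃ j, i < j := by
  have : #(Ioi i) ≠ 0 := by
    rw [hι.mk_Ioi]
    exact (aleph0_pos.trans_le hι.inf).ne'
  obtain ⟨j, hj⟩ := mk_ne_zero_iff.mp this
  exact ⟨j, hj⟩

theorem Idx.nonempty (hι : Idx ι) : Nonempty ι :=
  mk_ne_zero_iff.mp (aleph0_pos.trans_le hι.inf).ne'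

/-- The shift isomorphism. -/
theorem Idx.shift (hι : Idx ι) (i : ι) : Nonempty ({j // i < j} ≃o ι) := by
  refine hι.unique (P := {j // i < j}) (hι.mk_Ioi i) ?_
  intro p
  refine lt_of_le_of_lt ?_ (hι.small p.1)
  exact mk_le_of_injective (f := fun q : Iio p => (⟨q.1.1, q.2⟩ : Iio p.1))
    (fun a b h => by
      have h' : a.1.1 = b.1.1 := congrArg (fun z : Iio p.1 => z.1) h
      exact Subtype.ext (Subtype.ext h'))

end Idx

end Pool.Agent.Lib.Pe86704
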