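import Mathlib
import Pool.Agent.Lib.Pe86704.Basic

set_option autoImplicit false
set_option linter.unusedSectionVars false

/-!
The chain `U` of functions with bounded support from an index order to the three element chain,
ordered lexicographically. It is 2-transitive and has no small cuts.
-/

namespace Pool.Agent.Lib.Pe86704

open Cardinal Set

universe u

/-- Functions from `ι` to the three element chain with bounded support. -/
structure U (ι : Type u) [LinearOrder ι] : Type u where
  f : ι → SignType
  supp : ∃ b, ∀ i, b ≤ i → f i = 0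

/-- Lexicographic comparison of functions. -/
def LexLT {ι : Type*} {α : Type*} [LT ι] [LT α] (x y : ι → α) : Prop :=
  ∃ i, (∀ j, j < i → x j = y j) ∧ x i < y i

section

variable {ι : Type u} [LinearOrder ι] [WellFoundedLT ι]

theorem U.ext' {x y : U ι} (h : x.f = y.f) : x = y := by
  cases x; cases y; simp only at h; subst h; rfl

noncomputable instance : LinearOrder (U ι) :=
  LinearOrder.lift' (fun x : U ι => (toLex x.f : Lex (ι → SignType)))
    (fun _ _ h => U.ext' (toLex_inj.mp h))

theorem U.lt_iff {x y : U ι} : x < y ↔ LexLT x.f y.f :=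
  Iff.rfl

/-- First difference of two distinct functions. -/
theorem exists_fd {α : Type*} {x y : ι → α} (h : x ≠ y) :
    ∃ i, (∀ j, j < i → x j = y j) ∧ x i ≠ y i := by
  have hne : {i | x i ≠ y i}.Nonempty := by
    by_contra hcon
    rw [Set.not_nonempty_iff_eq_empty] at hcon
    apply h
    funext i
    by_contra hi
    have : i ∈ {i | x i ≠ y i} := hi
    rw [hcon] at this
    exact this
  obtain ⟨i, hi, hmin⟩ := WellFounded.has_min (wellFounded_lt (α := ι)) _ hne
  refine ⟨i, fun j hj => ?_, hi⟩
  by_contra hcon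
  exact hmin j hcon hj

/-- Grafting: follow `f` below `ζ`, take the value `m` at `ζ` and continue with `w`. -/
noncomputable def graft {α : Type*} (f : ι → α) (ζ : ι) (m : α) (h : {j // ζ < j} ≃o ι)
    (w : ι → α) : ι → α :=
  fun ξ => if hξ : ζ < ξ then w (h ⟨ξ, hξ⟩) else if ξ = ζ then m else f ξ

theorem graft_lt {α : Type*} {f : ι → α} {ζ : ι} {m : α} {h : {j // ζ < j} ≃o ι}
    {w : ι → α} {ξ : ι} (hξ : ξ < ζ) : graft f ζ m h w ξ = f ξ := by
  simp [graft, not_lt.mpr hξ.le, hξ.ne]

theorem graft_eq {α : Type*} {f : ι → α} {ζ : ι} {m : α} {h : {j // ζ < j} ≃o ι}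
    {w : ι → α} : graft f ζ m h w ζ = m := by
  simp [graft]

theorem graft_gt {α : Type*} {f : ι → α} {ζ : ι} {m : α} {h : {j // ζ < j} ≃o ι}
    {w : ι → α} {ξ : ι} (hξ : ζ < ξ) : graft f ζ m h w ξ = w (h ⟨ξ, hξ⟩) := by
  simp [graft, hξ]

/-- The shape of the elements above `f`. -/
abbrev Shape (f : ι → SignType) : Type u := {p : ι ×ₗ (SignType)ᵒᵈ // f (ofLex p).1 < OrderDual.ofDual (ofLex p).2}

theorem shape_iso (hι : Idx ι) (f : ι → SignType) (hf : ∀ b, ∃ i, b ≤ i ∧ f i < 1) :
    Nonempty (Shape f ≃o ι) := by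
  classical
  refine hι.unique (P := Shape f) ?_ ?_
  · apply le_antisymm
    · have h1 : #(Shape f) ≤ #(ι × SignType) :=
        mk_le_of_injective (f := fun p : Shape f => ((ofLex p.1).1, OrderDual.ofDual (ofLex p.1).2))
          (fun a b h => by
            apply Subtype.ext
            have h' := h
            simp only [Prod.mk.injEq] at h'
            exact congrArg toLex (Prod.ext h'.1 h'.2))
      refine h1.trans ?_
      rw [mk_prod, mk_fintype SignType, lift_natCast, lift_uzero]
      refine mul_le_of_le hι.inf le_rfl ?_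
      exact (natCast_le_aleph0).trans hι.inf
    · -- the set of good indices is unbounded, hence large
      have h2 : #ι ≤ #{i | f i < 1} := by
        by_contra hcon
        push Not at hcon
        obtain ⟨b, hb⟩ := hι.bdd _ hcon
        obtain ⟨i, hi1, hi2⟩ := hf b
        exact absurd (hb i hi2) (not_lt.mpr hi1)
      refine h2.trans ?_
      exact mk_le_of_injective
        (f := fun i : {i | f i < 1} => (⟨toLex (i.1, OrderDual.toDual 1), i.2⟩ : Shape f))
        (fun a b h => by
          have h' := congrArg (fun p : Shape f => (ofLex p.1).1) h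
          exact Subtype.ext h')
  · intro p
    have h1 : #(Iio p) ≤ #(Iic (ofLex p.1).1 × SignType) :=
      mk_le_of_injective
        (f := fun q : Iio p => ((⟨(ofLex q.1.1).1, by
          have hq : q.1 < p := q.2
          have hq' : q.1.1 < p.1 := hq
          rcases Prod.Lex.lt_iff.mp hq' with h | h
          · exact h.le
          · exact h.1.le⟩ : Iic (ofLex p.1).1), OrderDual.ofDual (ofLex q.1.1).2))
        (fun a b h => by
          have h' := h
          simp only [Prod.mk.injEq] at h'
          have h1 := congrArg Subtype.val h'.1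
          exact Subtype.ext (Subtype.ext (congrArg toLex (Prod.ext h1 h'.2))))
    refine lt_of_le_of_lt h1 ?_
    rw [mk_prod, mk_fintype SignType, lift_natCast, lift_uzero]
    exact mul_lt_of_lt hι.inf (hι.small_le _) ((natCast_lt_aleph0).trans_le hι.inf)

/-- The elements of `U` above `f` form the product of the reversed index order with `U`. -/
theorem upper_iso (hι : Idx ι) (f : ι → SignType) (hf : ∀ b, ∃ i, b ≤ i ∧ f i < 1) :
    Nonempty ((ιᵒᵈ ×ₗ U ι) ≃o {x : U ι // LexLT f x.f}) := by
  classical
  obtain ⟨e⟩ := shape_iso hι f hf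
  let h : ∀ ζ : ι, {j // ζ < j} ≃o ι := fun ζ => (hι.shift ζ).some
  let S : ιᵒᵈ ×ₗ U ι → Shape f := fun p => e.symm (OrderDual.ofDual (ofLex p).1)
  let Z : ιᵒᵈ ×ₗ U ι → ι := fun p => (ofLex (S p).1).1
  let m : ιᵒᵈ ×ₗ U ι → SignType := fun p => OrderDual.ofDual (ofLex (S p).1).2
  have hm : ∀ p, f (Z p) < m p := fun p => (S p).2
  let G0 : ιᵒᵈ ×ₗ U ι → (ι → SignType) := fun p =>
    graft f (Z p) (m p) (h (Z p)) (ofLex p).2.f
  have hsupp : ∀ p, ∃ b, ∀ i, b ≤ i → G0 p i = 0 := by
    intro p
    obtain ⟨b, hb⟩ := (ofLex p).2.supp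
    refine ⟨((h (Z p)).symm b).1, fun i hi => ?_⟩
    have hi' : Z p < i := lt_of_lt_of_le ((h (Z p)).symm b).2 hi
    simp only [G0]
    rw [graft_gt hi']
    apply hb
    rw [← (h (Z p)).symm_apply_le]
    exact hi
  have habove : ∀ p, LexLT f (G0 p) := by
    intro p
    refine ⟨Z p, fun j hj => ?_, ?_⟩
    · exact (graft_lt (f := f) hj).symm
    · show f (Z p) < G0 p (Z p)
      simp only [G0]
      rw [graft_eq]
      exact hm p
  let G : ιᵒᵈ ×ₗ U ι → {x : U ι // LexLT f x.f} := fun p =>
    ⟨⟨G0 p, hsupp p⟩, habove p⟩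
  have hmono : StrictMono G := by
    intro p q hpq
    show LexLT (G0 p) (G0 q)
    rcases Prod.Lex.lt_iff.mp hpq with h1 | ⟨h1, h2⟩
    · have h3 : S q < S p := e.symm.strictMono h1
      have h3' : (S q).1 < (S p).1 := h3
      rcases Prod.Lex.lt_iff.mp h3' with h4 | ⟨h4, h5⟩
      · have h4' : Z q < Z p := h4
        refine ⟨Z q, fun j hj => ?_, ?_⟩
        · show G0 p j = G0 q j
          simp only [G0]
          rw [graft_lt (hj.trans h4'), graft_lt hj]
        · show G0 p (Z q) < G0 q (Z q)
          simp only [G0]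
          rw [graft_lt h4', graft_eq]
          exact hm q
      · have h4' : Z q = Z p := h4
        have h5' : m p < m q := h5
        refine ⟨Z q, fun j hj => ?_, ?_⟩
        · show G0 p j = G0 q j
          simp only [G0]
          rw [graft_lt (h4' ▸ hj), graft_lt hj]
        · show G0 p (Z q) < G0 q (Z q)
          simp only [G0]
          rw [graft_eq, h4', graft_eq]
          exact h5'
    · have hS : S p = S q := by simp only [S]; rw [h1]
      have hZ : Z p = Z q := by simp only [Z]; rw [hS]
      have hmm : m p = m q := by simp only [m]; rw [hS]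
      obtain ⟨k, hk1, hk2⟩ := h2
      have hG : G0 p = graft f (Z q) (m q) (h (Z q)) (ofLex p).2.f := by
        simp only [G0]; rw [hZ, hmm]
      refine ⟨((h (Z q)).symm k).1, fun j hj => ?_, ?_⟩
      · show G0 p j = G0 q j
        rw [hG]
        rcases lt_trichotomy (Z q) j with hj' | hj' | hj'
        · simp only [G0]
          rw [graft_gt hj', graft_gt hj']
          apply hk1
          rw [← (h (Z q)).lt_symm_apply]
          exact hj
        · subst hj'
          simp only [G0]
          rw [graft_eq, graft_eq]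
        · simp only [G0]
          rw [graft_lt hj', graft_lt hj']
      · show G0 p _ < G0 q _
        rw [hG]
        have hj' : Z q < ((h (Z q)).symm k).1 := ((h (Z q)).symm k).2
        simp only [G0]
        rw [graft_gt hj', graft_gt hj']
        simpa using hk2
  have hsurj : Function.Surjective G := by
    rintro ⟨⟨x, hx⟩, hfx⟩
    obtain ⟨ζ, hζ1, hζ2⟩ := hfx
    have hζ2' : f ζ < x ζ := hζ2
    let s : Shape f := ⟨toLex (ζ, OrderDual.toDual (x ζ)), hζ2'⟩
    obtain ⟨b, hb⟩ := hx
    obtain ⟨b', hb'⟩ := hι.exists_gt (max b ζ)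
    have hb1 : b < b' := (le_max_left _ _).trans_lt hb'
    have hb2 : ζ < b' := (le_max_right _ _).trans_lt hb'
    let w : U ι := ⟨(fun k => x ((h ζ).symm k).1), ⟨h ζ ⟨b', hb2⟩, fun k hk => by
      show x ((h ζ).symm k).1 = 0
      apply hb
      have h1 : (⟨b', hb2⟩ : {j // ζ < j}) ≤ (h ζ).symm k := by
        rwa [(h ζ).le_symm_apply]
      exact hb1.le.trans h1⟩⟩
    let p : ιᵒᵈ ×ₗ U ι := toLex (OrderDual.toDual (e s), w)
    have hS : S p = s := by simp [S, p]
    have hZ : Z p = ζ := by simp only [Z]; rw [hS]; rfl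
    have hmm : m p = x ζ := by simp only [m]; rw [hS]; rfl
    refine ⟨p, ?_⟩
    apply Subtype.ext
    apply U.ext'
    funext j
    show G0 p j = x j
    have hG : G0 p = graft f ζ (x ζ) (h ζ) w.f := by
      simp only [G0]; rw [hZ, hmm]; rfl
    rw [hG]
    rcases lt_trichotomy ζ j with hj' | hj' | hj'
    · rw [graft_gt hj']
      show x ((h ζ).symm (h ζ ⟨j, hj'⟩)).1 = x j
      rw [OrderIso.symm_apply_apply]
    · subst hj'
      rw [graft_eq]
    · rw [graft_lt hj']
      exact hζ1 j hj'
  exact ⟨hmono.orderIsoOfSurjective G hsurj⟩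

end

end Pool.Agent.Lib.Pe86704
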