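import Mathlib
import Pool.Agent.Lib.Pe86704.U

set_option autoImplicit false
set_option linter.unusedSectionVars false

/-!
Homogeneity and saturation of the chain `U`.
-/

namespace Pool.Agent.Lib.Pe86704

open Cardinal Set

universe u

variable {ι : Type u} [LinearOrder ι] [WellFoundedLT ι]

/-- Upper rays of `U` are isomorphic to `U`. -/
theorem U.ray_gt (hι : Idx ι) (x : U ι) : Nonempty ({z : U ι // x < z} ≃o U ι) := by
  obtain ⟨b, hb⟩ := x.supp
  obtain ⟨e₁⟩ := upper_iso hι x.f (fun c => ⟨max b c, le_max_right _ _, by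
    rw [hb _ (le_max_left _ _)]; decide⟩)
  obtain ⟨e₂⟩ := upper_iso hι (fun _ => (-1 : SignType)) (fun c => ⟨c, le_rfl, by decide⟩)
  have hall : ∀ z : U ι, LexLT (fun _ => (-1 : SignType)) z.f := by
    intro z
    obtain ⟨b, hb⟩ := z.supp
    have hne : (fun _ => (-1 : SignType)) ≠ z.f := by
      intro h
      have := congrFun h b
      rw [hb b le_rfl] at this
      exact absurd this (by decide)
    obtain ⟨i, hi1, hi2⟩ := exists_fd hne
    refine ⟨i, hi1, ?_⟩
    exact lt_of_le_of_ne (SignType.neg_one_le _) hi2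
  let e₃ : {z : U ι // LexLT (fun _ => (-1 : SignType)) z.f} ≃o U ι :=
    { toFun := fun z => z.1
      invFun := fun z => ⟨z, hall z⟩
      left_inv := fun z => rfl
      right_inv := fun z => rfl
      map_rel_iff' := Iff.rfl }
  exact ⟨(e₁.symm.trans e₂).trans e₃⟩

/-- Negation. -/
def U.neg (x : U ι) : U ι := ⟨fun i => - x.f i, by
  obtain ⟨b, hb⟩ := x.supp
  exact ⟨b, fun i hi => by rw [hb i hi]; rfl⟩⟩

theorem U.neg_neg (x : U ι) : x.neg.neg = x := U.ext' (by funext i; simp [U.neg])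

theorem U.neg_lt {x y : U ι} (h : x < y) : y.neg < x.neg := by
  obtain ⟨i, hi1, hi2⟩ := h
  refine ⟨i, fun j hj => ?_, ?_⟩
  · show - y.f j = - x.f j
    have : x.f j = y.f j := hi1 j hj
    rw [this]
  · show - y.f i < - x.f i
    exact SignType.neg_lt_neg_iff.mpr hi2

theorem U.neg_lt_iff {x y : U ι} : y.neg < x.neg ↔ x < y :=
  ⟨fun h => by simpa [U.neg_neg] using U.neg_lt h, U.neg_lt⟩

theorem U.lt_neg {x y : U ι} : y < x.neg ↔ x < y.neg := by
  rw [← U.neg_lt_iff (x := x) (y := y.neg), U.neg_neg]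

theorem U.neg_lt' {x y : U ι} : x.neg < y ↔ y.neg < x := by
  rw [← U.neg_lt_iff (x := y.neg) (y := x), U.neg_neg]

/-- Lower rays of `U` are isomorphic to `U`. -/
theorem U.ray_lt (hι : Idx ι) (x : U ι) : Nonempty ({z : U ι // z < x} ≃o U ι) := by
  obtain ⟨e⟩ := U.ray_gt hι x.neg
  let F : {z : U ι // z < x} → U ι := fun z => (e ⟨z.1.neg, U.neg_lt z.2⟩).neg
  have hmono : StrictMono F := by
    intro a b hab
    apply U.neg_lt
    apply e.strictMono
    exact U.neg_lt (show a.1 < b.1 from hab)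
  have hsurj : Function.Surjective F := by
    intro y
    refine ⟨⟨(e.symm y.neg).1.neg, ?_⟩, ?_⟩
    · have := (e.symm y.neg).2
      rwa [U.neg_lt'] at this
    · simp only [F]
      have : (⟨((e.symm y.neg).1.neg).neg, U.neg_lt (by
          have := (e.symm y.neg).2
          rwa [U.neg_lt'] at this)⟩ : {z : U ι // x.neg < z}) = e.symm y.neg :=
        Subtype.ext (U.neg_neg _)
      rw [this, OrderIso.apply_symm_apply, U.neg_neg]
  exact ⟨hmono.orderIsoOfSurjective F hsurj⟩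

/-- `U` is 1-transitive. -/
theorem U.trans1 (hι : Idx ι) (x y : U ι) : ∃ σ : U ι ≃o U ι, σ x = y := by
  obtain ⟨a⟩ := U.ray_lt hι x
  obtain ⟨b⟩ := U.ray_lt hι y
  obtain ⟨c⟩ := U.ray_gt hι x
  obtain ⟨d⟩ := U.ray_gt hι y
  obtain ⟨σ, h, -, -⟩ := glue (a.trans b.symm) (c.trans d.symm)
  exact ⟨σ, h⟩

/-- Moving a point below `y` to another one, fixing everything from `y` on. -/
theorem U.trans_below (hι : Idx ι) {x x' y : U ι} (hx : x < y) (hx' : x' < y) :
    ∃ σ : U ι ≃o U ι, σ x = x' ∧ ∀ z, y ≤ z → σ z = z := by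
  obtain ⟨a⟩ := U.ray_lt hι y
  obtain ⟨τ, hτ⟩ := U.trans1 hι (a ⟨x, hx⟩) (a ⟨x', hx'⟩)
  obtain ⟨σ, h1, h2, h3⟩ := glue ((a.trans τ).trans a.symm) (OrderIso.refl {z // y < z})
  refine ⟨σ, ?_, ?_⟩
  · rw [h2 x hx]
    simp [hτ]
  · intro z hz
    rcases hz.eq_or_lt with rfl | hz
    · exact h1
    · rw [h3 z hz]; rfl

theorem U.trans_above (hι : Idx ι) {x x' y : U ι} (hx : y < x) (hx' : y < x') :
    ∃ σ : U ι ≃o U ι, σ x = x' ∧ ∀ z, z ≤ y → σ z = z := by
  obtain ⟨a⟩ := U.ray_gt hι y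
  obtain ⟨τ, hτ⟩ := U.trans1 hι (a ⟨x, hx⟩) (a ⟨x', hx'⟩)
  obtain ⟨σ, h1, h2, h3⟩ := glue (OrderIso.refl {z // z < y}) ((a.trans τ).trans a.symm)
  refine ⟨σ, ?_, ?_⟩
  · rw [h3 x hx]
    simp [hτ]
  · intro z hz
    rcases hz.eq_or_lt with rfl | hz
    · exact h1
    · rw [h2 z hz]; rfl

/-- `U` is 2-transitive. -/
theorem U.trans2 (hι : Idx ι) {x y x' y' : U ι} (h : x < y) (h' : x' < y') :
    ∃ σ : U ι ≃o U ι, σ x = x' ∧ σ y = y' := by
  obtain ⟨σ₁, h1⟩ := U.trans1 hι x x'
  have h2 : x' < σ₁ y := by rw [← h1]; exact σ₁.strictMono h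
  obtain ⟨σ₂, h3, h4⟩ := U.trans_above hι h2 h'
  refine ⟨σ₁.trans σ₂, ?_, ?_⟩
  · simp [h1, h4 x' le_rfl]
  · simp [h3]

/-- Saturation: between small sets `A < B` there is a point. -/
theorem U.eta (hι : Idx ι) (A B : Set (U ι)) (hA : #A < #ι) (hB : #B < #ι)
    (hAB : ∀ a ∈ A, ∀ b ∈ B, a < b) : ∃ x : U ι, (∀ a ∈ A, a < x) ∧ (∀ b ∈ B, x < b) := by
  classical
  -- a common bound of the supports
  obtain ⟨β, hβ⟩ : ∃ β : ι, ∀ z ∈ A ∪ B, ∀ i, β ≤ i → z.f i = 0 := by
    let bd : U ι → ι := fun z => z.supp.choose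
    have hbd : ∀ z : U ι, ∀ i, bd z ≤ i → z.f i = 0 := fun z => z.supp.choose_spec
    have hsm : #(bd '' (A ∪ B)) < #ι :=
      lt_of_le_of_lt mk_image_le (lt_of_le_of_lt (mk_union_le _ _) (add_lt_of_lt hι.inf hA hB))
    obtain ⟨β, hβ⟩ := hι.bdd _ hsm
    exact ⟨β, fun z hz i hi => hbd z i ((hβ _ ⟨z, hz, rfl⟩).le.trans hi)⟩
  -- the supremum of A
  let wf : WellFounded (fun a b : ι => a < b) := wellFounded_lt
  let F : ∀ i : ι, (∀ j, j < i → SignType) → SignType := fun i s =>
    if ∃ a ∈ A, (∀ j (hj : j < i), a.f j = s j hj) ∧ a.f i = 1 then 1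
    else if ∃ a ∈ A, (∀ j (hj : j < i), a.f j = s j hj) ∧ a.f i = 0 then 0 else -1
  let s : ι → SignType := wf.fix F
  have hs : ∀ i, s i = F i (fun j _ => s j) := fun i => wf.fix_eq F i
  have hA1 : ∀ a ∈ A, ∀ i, (∀ j, j < i → a.f j = s j) → a.f i ≤ s i := by
    intro a ha i hagr
    rw [hs i]
    simp only [F]
    split_ifs with h1 h2
    · exact SignType.le_one _
    · rcases SignType.trichotomy (a.f i) with h | h | h
      · rw [h]; decide
      · rw [h]
      · exact absurd ⟨a, ha, hagr, h⟩ h1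
    · rcases SignType.trichotomy (a.f i) with h | h | h
      · rw [h]
      · exact absurd ⟨a, ha, hagr, h⟩ h2
      · exact absurd ⟨a, ha, hagr, h⟩ h1
  have hB1 : ∀ b ∈ B, ∀ i, (∀ j, j < i → b.f j = s j) → s i ≤ b.f i := by
    intro b hb i hagr
    have key : ∀ a ∈ A, (∀ j, j < i → a.f j = s j) → a.f i ≤ b.f i := by
      intro a ha hagr'
      by_contra hcon
      push Not at hcon
      have h1 : b < a := ⟨i, fun j hj => (hagr j hj).trans (hagr' j hj).symm, hcon⟩
      exact absurd (hAB a ha b hb) (not_lt.mpr h1.le)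
    rw [hs i]
    simp only [F]
    split_ifs with h1 h2
    · obtain ⟨a, ha, h3, h4⟩ := h1
      rw [← h4]; exact key a ha h3
    · obtain ⟨a, ha, h3, h4⟩ := h2
      rw [← h4]; exact key a ha h3
    · exact SignType.neg_one_le _
  -- the point
  let m : SignType := if ∃ a ∈ A, ∀ j, j < β → a.f j = s j then 1 else -1
  let x : U ι := ⟨fun i => if i < β then s i else if i = β then m else 0, by
    obtain ⟨c, hc⟩ := hι.exists_gt β
    exact ⟨c, fun i hi => by
      have : β < i := hc.trans_le hi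
      simp [not_lt.mpr this.le, this.ne']⟩⟩
  have hx1 : ∀ i, i < β → x.f i = s i := fun i hi => by simp [x, hi]
  have hx2 : x.f β = m := by simp [x]
  refine ⟨x, ?_, ?_⟩
  · intro a ha
    by_cases hag : ∀ j, j < β → a.f j = s j
    · refine ⟨β, fun j hj => (hag j hj).trans (hx1 j hj).symm, ?_⟩
      show a.f β < x.f β
      rw [hx2, hβ a (Or.inl ha) β le_rfl]
      have : m = 1 := by
        simp only [m]; rw [if_pos ⟨a, ha, hag⟩]
      rw [this]; decide
    · push Not at hag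
      obtain ⟨i, hi1, hi2⟩ := exists_fd (x := a.f) (y := s) (by
        rintro h
        obtain ⟨j, hj, hj'⟩ := hag
        exact hj' (congrFun h j))
      have hiβ : i < β := by
        obtain ⟨j, hj, hj'⟩ := hag
        by_contra hcon
        exact hj' (hi1 j (hj.trans_le (not_lt.mp hcon)))
      refine ⟨i, fun j hj => (hi1 j hj).trans (hx1 j (hj.trans hiβ)).symm, ?_⟩
      show a.f i < x.f i
      rw [hx1 i hiβ]
      exact lt_of_le_of_ne (hA1 a ha i hi1) hi2
  · intro b hb
    by_cases hag : ∀ j, j < β → b.f j = s j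
    · refine ⟨β, fun j hj => (hx1 j hj).trans (hag j hj).symm, ?_⟩
      show x.f β < b.f β
      rw [hx2, hβ b (Or.inr hb) β le_rfl]
      have : m = -1 := by
        simp only [m]
        rw [if_neg]
        rintro ⟨a, ha, hag'⟩
        have : a = b := by
          apply U.ext'
          funext j
          rcases lt_or_ge j β with hj | hj
          · rw [hag j hj, hag' j hj]
          · rw [hβ a (Or.inl ha) j hj, hβ b (Or.inr hb) j hj]
        exact absurd (hAB a ha b hb) (by rw [this]; exact lt_irrefl _)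
      rw [this]; decide
    · push Not at hag
      obtain ⟨i, hi1, hi2⟩ := exists_fd (x := b.f) (y := s) (by
        rintro h
        obtain ⟨j, hj, hj'⟩ := hag
        exact hj' (congrFun h j))
      have hiβ : i < β := by
        obtain ⟨j, hj, hj'⟩ := hag
        by_contra hcon
        exact hj' (hi1 j (hj.trans_le (not_lt.mp hcon)))
      refine ⟨i, fun j hj => (hx1 j (hj.trans hiβ)).trans (hi1 j hj).symm, ?_⟩
      show x.f i < b.f i
      rw [hx1 i hiβ]
      exact lt_of_le_of_ne (hB1 b hb i hi1) (Ne.symm hi2)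

theorem U.exists_gt (hι : Idx ι) (x : U ι) : ∃ y, x < y := by
  obtain ⟨y, h, -⟩ := U.eta hι {x} ∅ (by rw [mk_singleton]; exact one_lt_aleph0.trans_le hι.inf)
    (by simpa using aleph0_pos.trans_le hι.inf) (by simp)
  exact ⟨y, h x rfl⟩

theorem U.exists_lt (hι : Idx ι) (x : U ι) : ∃ y, y < x := by
  obtain ⟨y, -, h⟩ := U.eta hι ∅ {x} (by simpa using aleph0_pos.trans_le hι.inf)
    (by rw [mk_singleton]; exact one_lt_aleph0.trans_le hι.inf) (by simp)
  exact ⟨y, h x rfl⟩

theorem U.exists_btw (hι : Idx ι) {x y : U ι} (h : x < y) : ∃ z, x < z ∧ z < y := by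
  obtain ⟨z, h1, h2⟩ := U.eta hι {x} {y}
    (by rw [mk_singleton]; exact one_lt_aleph0.trans_le hι.inf)
    (by rw [mk_singleton]; exact one_lt_aleph0.trans_le hι.inf)
    (by rintro a rfl b rfl; exact h)
  exact ⟨z, h1 x rfl, h2 y rfl⟩

/-- The characteristic function of an initial segment. -/
def U.one (ξ : ι) : U ι := ⟨fun i => if i < ξ then 1 else 0, ⟨ξ, fun i hi => by
  simp [not_lt.mpr hi]⟩⟩

theorem U.one_strictMono : StrictMono (U.one : ι → U ι) := by
  intro a b hab
  refine ⟨a, fun j hj => ?_, ?_⟩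
  · show (if j < a then (1 : SignType) else 0) = (if j < b then 1 else 0)
    rw [if_pos hj, if_pos (lt_trans hj hab)]
  · show (if a < a then (1 : SignType) else 0) < (if a < b then 1 else 0)
    rw [if_neg (lt_irrefl a), if_pos hab]
    decide

theorem U.lt_one (hι : Idx ι) (x : U ι) : ∃ ξ, x < U.one ξ := by
  obtain ⟨b, hb⟩ := x.supp
  obtain ⟨ξ, hξ⟩ := hι.exists_gt b
  refine ⟨ξ, ?_⟩
  have hne : x.f ≠ (U.one ξ).f := by
    intro h
    have := congrFun h b
    rw [hb b le_rfl] at this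
    simp only [U.one] at this
    rw [if_pos hξ] at this
    exact absurd this (by decide)
  obtain ⟨i, hi1, hi2⟩ := exists_fd hne
  refine ⟨i, hi1, ?_⟩
  have hib : i ≤ b := by
    by_contra hcon
    push Not at hcon
    have := hi1 b hcon
    rw [hb b le_rfl] at this
    simp only [U.one] at this
    rw [if_pos hξ] at this
    exact absurd this (by decide)
  have h1 : (U.one ξ).f i = 1 := by
    simp only [U.one]; rw [if_pos (hib.trans_lt hξ)]
  show x.f i < (U.one ξ).f i
  exact lt_of_le_of_ne (by rw [h1]; exact SignType.le_one _) hi2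

end Pool.Agent.Lib.Pe86704
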