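import Mathlib
import Pool.Agent.Lib.Pe86704.U2

set_option autoImplicit false
set_option linter.unusedSectionVars false

/-!
Lexicographic products of lower sets of a chain, and their homogeneity.
-/

namespace Pool.Agent.Lib.Pe86704

open Cardinal Set

universe u

/-- The product of the sets `D ζ`, to be ordered lexicographically. -/
structure T {ι L : Type u} (D : ι → Set L) : Type u where
  f : ι → L
  mem : ∀ ζ, f ζ ∈ D ζ

variable {ι L : Type u} [LinearOrder ι] [WellFoundedLT ι] [LinearOrder L] {D : ι → Set L}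

theorem T.ext' {x y : T D} (h : x.f = y.f) : x = y := by
  cases x; cases y; simp only at h; subst h; rfl

noncomputable instance : LinearOrder (T D) :=
  LinearOrder.lift' (fun x : T D => (toLex x.f : Lex (ι → L)))
    (fun _ _ h => T.ext' (toLex_inj.mp h))

theorem T.lt_iff {x y : T D} : x < y ↔ LexLT x.f y.f := Iff.rfl

theorem T.fd {x y : T D} (h : x ≠ y) : ∃ i, (∀ j, j < i → x.f j = y.f j) ∧ x.f i ≠ y.f i :=
  exists_fd (fun e => h (T.ext' e))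

theorem T.apply_le {x y : T D} (h : x ≤ y) {g : ι} (ha : ∀ j, j < g → x.f j = y.f j) :
    x.f g ≤ y.f g := by
  by_contra hcon
  push Not at hcon
  have : y < x := ⟨g, fun j hj => (ha j hj).symm, hcon⟩
  exact absurd h (not_le.mpr this)

/-- Squeezing. -/
theorem T.squeeze {x y z : T D} (hxy : x ≤ y) (hyz : y ≤ z) {g : ι}
    (h : ∀ j, j ≤ g → x.f j = z.f j) : ∀ j, j ≤ g → x.f j = y.f j := by
  by_cases he : x = y
  · subst he; intro j _; rfl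
  · obtain ⟨i, hi1, hi2⟩ := T.fd he
    have hlt : x.f i < y.f i := lt_of_le_of_ne (T.apply_le hxy hi1) hi2
    have hgi : g < i := by
      by_contra hcon
      push Not at hcon
      have : z < y := ⟨i, fun j hj => (h j (hj.le.trans hcon)).symm.trans (hi1 j hj), by
        show z.f i < y.f i
        rw [← h i hcon]; exact hlt⟩
      exact absurd hyz (not_le.mpr this)
    exact fun j hj => hi1 j (hj.trans_lt hgi)

theorem T.squeeze_lt {x y z : T D} (hxy : x ≤ y) (hyz : y ≤ z) {g : ι}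
    (h : ∀ j, j < g → x.f j = z.f j) : ∀ j, j < g → x.f j = y.f j := by
  intro j hj
  exact T.squeeze hxy hyz (g := j) (fun k hk => h k (hk.trans_lt hj)) j le_rfl

/-- Two-homogeneity of the product. -/
theorem T.homog (hD : ∀ ζ, IsLowerSet (D ζ))
    (h2 : ∀ x y x' y' : L, x < y → x' < y' → ∃ σ : L ≃o L, σ x = x' ∧ σ y = y')
    (h1 : ∀ ζ, ∀ x ∈ D ζ, ∀ x' ∈ D ζ, ∃ σ : L ≃o L, σ x = x' ∧ ∀ z, σ z ∈ D ζ ↔ z ∈ D ζ)
    (hs : ∀ g g' : ι, ∃ h : {j // g < j} ≃o {j // g' < j}, ∀ j, D (h j).1 = D j.1)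
    {f₁ f₂ f₁' f₂' : T D} (hf : f₁ < f₂) (hf' : f₁' < f₂') :
    Nonempty ({x // f₁ ≤ x ∧ x ≤ f₂} ≃o {x // f₁' ≤ x ∧ x ≤ f₂'}) := by
  classical
  obtain ⟨g, hg1, hg2⟩ := hf
  obtain ⟨g', hg1', hg2'⟩ := hf'
  have hg1 : ∀ j, j < g → f₁.f j = f₂.f j := hg1
  have hg2 : f₁.f g < f₂.f g := hg2
  have hg1' : ∀ j, j < g' → f₁'.f j = f₂'.f j := hg1'
  have hg2' : f₁'.f g' < f₂'.f g' := hg2'
  have hf : f₁ < f₂ := ⟨g, hg1, hg2⟩
  have hf' : f₁' < f₂' := ⟨g', hg1', hg2'⟩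
  obtain ⟨h, hh⟩ := hs g g'
  obtain ⟨σ, hσ1, hσ2⟩ := h2 _ _ _ _ hg2 hg2'
  have hα : ∀ j : {j // g < j}, ∃ τ : L ≃o L, τ (f₁.f j.1) = f₁'.f (h j).1 ∧
      ∀ z, τ z ∈ D j.1 ↔ z ∈ D j.1 := fun j =>
    h1 j.1 _ (f₁.mem _) _ (by rw [← hh j]; exact f₁'.mem _)
  have hβ : ∀ j : {j // g < j}, ∃ τ : L ≃o L, τ (f₂.f j.1) = f₂'.f (h j).1 ∧
      ∀ z, τ z ∈ D j.1 ↔ z ∈ D j.1 := fun j =>
    h1 j.1 _ (f₂.mem _) _ (by rw [← hh j]; exact f₂'.mem _)
  choose α hα1 hα2 using hα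
  choose β hβ1 hβ2 using hβ
  let τ : L → {j // g < j} → (L ≃o L) := fun ℓ j =>
    if ℓ = f₁.f g then α j else if ℓ = f₂.f g then β j else OrderIso.refl L
  have hτ : ∀ ℓ j z, τ ℓ j z ∈ D j.1 ↔ z ∈ D j.1 := by
    intro ℓ j z
    simp only [τ]
    split_ifs
    · exact hα2 j z
    · exact hβ2 j z
    · exact Iff.rfl
  -- the map on functions
  let F : (ι → L) → (ι → L) := fun x ζ =>
    if hζ : g' < ζ then τ (x g) (h.symm ⟨ζ, hζ⟩) (x (h.symm ⟨ζ, hζ⟩).1)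
    else if ζ = g' then σ (x g) else f₁'.f ζ
  have F1 : ∀ x ζ (hζ : g' < ζ), F x ζ = τ (x g) (h.symm ⟨ζ, hζ⟩) (x (h.symm ⟨ζ, hζ⟩).1) :=
    fun x ζ hζ => by simp [F, hζ]
  have F2 : ∀ x, F x g' = σ (x g) := fun x => by simp [F]
  have F3 : ∀ x ζ, ζ < g' → F x ζ = f₁'.f ζ := fun x ζ hζ => by
    simp [F, not_lt.mpr hζ.le, hζ.ne]
  have F1' : ∀ x (j : {j // g < j}), F x (h j).1 = τ (x g) j (x j.1) := by
    intro x j
    rw [F1 x _ (h j).2]
    simp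
  have hFmem : ∀ x : T D, x.f g ≤ f₂.f g → ∀ ζ, F x.f ζ ∈ D ζ := by
    intro x hx ζ
    rcases lt_trichotomy g' ζ with hζ | hζ | hζ
    · rw [F1 x.f ζ hζ]
      have e1 : D ζ = D (h.symm ⟨ζ, hζ⟩).1 := by
        have := hh (h.symm ⟨ζ, hζ⟩)
        rw [OrderIso.apply_symm_apply] at this
        exact this
      rw [e1, hτ]
      exact x.mem _
    · subst hζ
      rw [F2]
      refine hD _ ?_ (f₂'.mem g')
      rw [← hσ2]
      exact σ.monotone hx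
    · rw [F3 x.f ζ hζ]
      exact f₁'.mem ζ
  -- strict monotonicity on K
  let K : Set (ι → L) := {x | (∀ j, j < g → x j = f₁.f j)}
  have hmono : ∀ x ∈ K, ∀ y ∈ K, LexLT x y → LexLT (F x) (F y) := by
    intro x hx y hy hxy
    obtain ⟨i, hi1, hi2⟩ := hxy
    have hgi : g ≤ i := by
      by_contra hcon
      push Not at hcon
      rw [hx i hcon, hy i hcon] at hi2
      exact lt_irrefl _ hi2
    rcases hgi.eq_or_lt with rfl | hgi
    · refine ⟨g', fun j hj => by rw [F3 x j hj, F3 y j hj], ?_⟩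
      rw [F2, F2]
      exact σ.strictMono hi2
    · have hxy : x g = y g := hi1 g hgi
      refine ⟨(h ⟨i, hgi⟩).1, fun j hj => ?_, ?_⟩
      · rcases lt_trichotomy g' j with hj' | hj' | hj'
        · rw [F1 x j hj', F1 y j hj', hxy]
          have : (h.symm ⟨j, hj'⟩) < (⟨i, hgi⟩ : {j // g < j}) := by
            rw [h.symm_apply_lt]
            exact hj
          rw [hi1 _ this]
        · subst hj'
          rw [F2, F2, hxy]
        · rw [F3 x j hj', F3 y j hj']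
      · rw [F1', F1', hxy]
        exact (τ (y g) ⟨i, hgi⟩).strictMono hi2
  have hF1 : F f₁.f = f₁'.f := by
    funext ζ
    rcases lt_trichotomy g' ζ with hζ | hζ | hζ
    · rw [F1 _ ζ hζ]
      have : τ (f₁.f g) (h.symm ⟨ζ, hζ⟩) = α (h.symm ⟨ζ, hζ⟩) := by simp [τ]
      rw [this, hα1, OrderIso.apply_symm_apply]
    · subst hζ; rw [F2, hσ1]
    · rw [F3 _ ζ hζ]
  have hF2 : F f₂.f = f₂'.f := by
    funext ζ
    rcases lt_trichotomy g' ζ with hζ | hζ | hζ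
    · rw [F1 _ ζ hζ]
      have : τ (f₂.f g) (h.symm ⟨ζ, hζ⟩) = β (h.symm ⟨ζ, hζ⟩) := by simp [τ, hg2.ne']
      rw [this, hβ1, OrderIso.apply_symm_apply]
    · subst hζ; rw [F2, hσ2]
    · rw [F3 _ ζ hζ]; exact hg1' ζ hζ
  have hIccK : ∀ x : T D, f₁ ≤ x → x ≤ f₂ → x.f ∈ K := fun x hx1 hx2 j hj =>
    (T.squeeze_lt hx1 hx2 hg1 j hj).symm
  have hIccle : ∀ x : T D, f₁ ≤ x → x ≤ f₂ → x.f g ≤ f₂.f g := fun x hx1 hx2 =>
    T.apply_le hx2 (fun j hj => (hIccK x hx1 hx2 j hj).trans (hg1 j hj))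
  have hf₁K : f₁.f ∈ K := fun j _ => rfl
  have hf₂K : f₂.f ∈ K := fun j hj => (hg1 j hj).symm
  let G0 : {x : T D // f₁ ≤ x ∧ x ≤ f₂} → T D := fun x =>
    ⟨F x.1.f, hFmem x.1 (hIccle x.1 x.2.1 x.2.2)⟩
  have hG0mono : StrictMono G0 := fun x y hxy =>
    hmono _ (hIccK _ x.2.1 x.2.2) _ (hIccK _ y.2.1 y.2.2) hxy
  have hG01 : G0 ⟨f₁, le_rfl, hf.le⟩ = f₁' := T.ext' hF1
  have hG02 : G0 ⟨f₂, hf.le, le_rfl⟩ = f₂' := T.ext' hF2
  let G : {x : T D // f₁ ≤ x ∧ x ≤ f₂} → {x : T D // f₁' ≤ x ∧ x ≤ f₂'} := fun x =>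
    ⟨G0 x, by rw [← hG01]; exact hG0mono.monotone (show f₁ ≤ x.1 from x.2.1),
      by rw [← hG02]; exact hG0mono.monotone (show x.1 ≤ f₂ from x.2.2)⟩
  have hGmono : StrictMono G := fun x y hxy => hG0mono hxy
  have hGsurj : Function.Surjective G := by
    rintro ⟨y, hy1, hy2⟩
    have hyK : ∀ j, j < g' → y.f j = f₁'.f j := fun j hj =>
      (T.squeeze_lt hy1 hy2 hg1' j hj).symm
    have hyle : y.f g' ≤ f₂'.f g' :=
      T.apply_le hy2 (fun j hj => (hyK j hj).trans (hg1' j hj))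
    let ℓ : L := σ.symm (y.f g')
    let x0 : ι → L := fun ζ =>
      if hζ : g < ζ then (τ ℓ ⟨ζ, hζ⟩).symm (y.f (h ⟨ζ, hζ⟩).1) else if ζ = g then ℓ else f₁.f ζ
    have X1 : ∀ ζ (hζ : g < ζ), x0 ζ = (τ ℓ ⟨ζ, hζ⟩).symm (y.f (h ⟨ζ, hζ⟩).1) :=
      fun ζ hζ => by simp [x0, hζ]
    have X2 : x0 g = ℓ := by simp [x0]
    have X3 : ∀ ζ, ζ < g → x0 ζ = f₁.f ζ := fun ζ hζ => by
      simp [x0, not_lt.mpr hζ.le, hζ.ne]
    have hℓ : ℓ ≤ f₂.f g := by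
      simp only [ℓ]
      rw [σ.symm_apply_le, hσ2]
      exact hyle
    have hxmem : ∀ ζ, x0 ζ ∈ D ζ := by
      intro ζ
      rcases lt_trichotomy g ζ with hζ | hζ | hζ
      · rw [X1 ζ hζ]
        rw [← hτ ℓ ⟨ζ, hζ⟩, OrderIso.apply_symm_apply, ← hh ⟨ζ, hζ⟩]
        exact y.mem _
      · subst hζ; rw [X2]; exact hD _ hℓ (f₂.mem g)
      · rw [X3 ζ hζ]; exact f₁.mem ζ
    have hxK : x0 ∈ K := fun j hj => X3 j hj
    have hFx : F x0 = y.f := by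
      funext ζ
      rcases lt_trichotomy g' ζ with hζ | hζ | hζ
      · rw [F1 _ ζ hζ, X2, X1 _ (h.symm ⟨ζ, hζ⟩).2]
        simp
      · subst hζ; rw [F2, X2]; simp [ℓ]
      · rw [F3 _ ζ hζ]; exact (hyK ζ hζ).symm
    let x : T D := ⟨x0, hxmem⟩
    have hx1 : f₁ ≤ x := by
      by_contra hcon
      push Not at hcon
      have : LexLT (F x0) (F f₁.f) := hmono _ hxK _ hf₁K hcon
      rw [hFx, hF1] at this
      exact absurd hy1 (not_le.mpr this)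
    have hx2 : x ≤ f₂ := by
      by_contra hcon
      push Not at hcon
      have : LexLT (F f₂.f) (F x0) := hmono _ hf₂K _ hxK hcon
      rw [hFx, hF2] at this
      exact absurd hy2 (not_le.mpr this)
    exact ⟨⟨x, hx1, hx2⟩, Subtype.ext (T.ext' hFx)⟩
  exact ⟨hGmono.orderIsoOfSurjective G hGsurj⟩

end Pool.Agent.Lib.Pe86704
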