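import Mathlib
import Pool.Agent.Lib.Pe86704.T

set_option autoImplicit false
set_option linter.unusedSectionVars false

/-!
Cuts of small character in the product.
-/

namespace Pool.Agent.Lib.Pe86704

open Cardinal Set

universe u

variable {ι L : Type u} [LinearOrder ι] [WellFoundedLT ι] [LinearOrder L] {D : ι → Set L}

open Classical in
/-- Change one coordinate. -/
noncomputable def T.upd (φ : T D) (ζ : ι) (ℓ : L) (hℓ : ℓ ∈ D ζ) : T D :=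
  ⟨fun j => if j = ζ then ℓ else φ.f j, fun j => by
    show (if j = ζ then ℓ else φ.f j) ∈ D j
    split_ifs with h
    · subst h; exact hℓ
    · exact φ.mem j⟩

theorem T.upd_eq (φ : T D) (ζ : ι) (ℓ : L) (hℓ : ℓ ∈ D ζ) : (φ.upd ζ ℓ hℓ).f ζ = ℓ := by
  simp [T.upd]

theorem T.upd_ne (φ : T D) {ζ : ι} {ℓ : L} (hℓ : ℓ ∈ D ζ) {j : ι} (hj : j ≠ ζ) :
    (φ.upd ζ ℓ hℓ).f j = φ.f j := by
  simp [T.upd, hj]

/-- Points have large left character. -/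
theorem T.point_large (hι : Idx ι) (hmin : ∀ ζ, ∀ ℓ ∈ D ζ, ∃ ℓ' ∈ D ζ, ℓ' < ℓ) (r : T D)
    (S : Set (T D)) (hS : ∀ x ∈ S, x < r) (hS' : #S < #ι) : ∃ y, y < r ∧ ∀ x ∈ S, x < y := by
  classical
  have hfd : ∀ x : T D, ∃ i, x ∈ S → ((∀ j, j < i → x.f j = r.f j) ∧ x.f i < r.f i) := by
    intro x
    by_cases hx : x ∈ S
    · obtain ⟨i, hi⟩ := hS x hx
      exact ⟨i, fun _ => hi⟩
    · exact ⟨hι.nonempty.some, fun h => absurd h hx⟩
  choose i hi using hfd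
  obtain ⟨b, hb⟩ := hι.bdd (i '' S) (lt_of_le_of_lt mk_image_le hS')
  obtain ⟨ℓ, hℓ, hlt⟩ := hmin b _ (r.mem b)
  refine ⟨r.upd b ℓ hℓ, ⟨b, fun j hj => T.upd_ne _ hℓ hj.ne, ?_⟩, fun x hx => ?_⟩
  · show (r.upd b ℓ hℓ).f b < r.f b
    rw [T.upd_eq]; exact hlt
  · have hxb : i x < b := hb _ ⟨x, hx, rfl⟩
    refine ⟨i x, fun j hj => ?_, ?_⟩
    · show x.f j = (r.upd b ℓ hℓ).f j
      rw [T.upd_ne _ _ (hj.trans hxb).ne]
      exact (hi x hx).1 j hj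
    · show x.f (i x) < (r.upd b ℓ hℓ).f (i x)
      rw [T.upd_ne _ _ hxb.ne]
      exact (hi x hx).2

/-- The lower part of the canonical cut given by the node `φ` below `ζ`. -/
def lowerPart (ζ : ι) (φ : T D) : Set (T D) :=
  {x | ∃ y : T D, (∀ j, j < ζ → y.f j = φ.f j) ∧ x ≤ y}

/-- Gaps of small character are canonical. -/
theorem T.gap_canonical (hι : Idx ι) (hD : ∀ ζ, IsLowerSet (D ζ))
    (hη : ∀ A B : Set L, #A < #ι → #B < #ι → (∀ a ∈ A, ∀ b ∈ B, a < b) →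
      ∃ x, (∀ a ∈ A, a < x) ∧ (∀ b ∈ B, x < b))
    (A B A₀ B₀ : Set (T D)) (hAB : A ∪ B = Set.univ) (hlt : ∀ a ∈ A, ∀ b ∈ B, a < b)
    (hBne : B.Nonempty)
    (hA₀ : A₀ ⊆ A) (hB₀ : B₀ ⊆ B) (hA₀c : ∀ a ∈ A, ∃ a' ∈ A₀, a ≤ a')
    (hB₀c : ∀ b ∈ B, ∃ b' ∈ B₀, b' ≤ b) (hA₀s : #A₀ < #ι) (hB₀s : #B₀ < #ι) :
    ∃ (ζ : ι) (φ : T D), (∃ g, g < ζ) ∧ (∀ g, g < ζ → ∃ j, g < j ∧ j < ζ) ∧
      A = lowerPart ζ φ := by
  classical
  -- step 1
  have hI : ∃ g : ι, ¬ ∃ a ∈ A, ∃ b ∈ B, ∀ j, j ≤ g → a.f j = b.f j := by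
    by_contra hcon
    push Not at hcon
    have hfd : ∀ p : T D × T D, ∃ i, p ∈ A₀ ×ˢ B₀ → p.1.f i ≠ p.2.f i := by
      intro p
      by_cases hp : p ∈ A₀ ×ˢ B₀
      · obtain ⟨i, -, hi⟩ := T.fd (hlt p.1 (hA₀ hp.1) p.2 (hB₀ hp.2)).ne
        exact ⟨i, fun _ => hi⟩
      · exact ⟨hι.nonempty.some, fun h => absurd h hp⟩
    choose i hi using hfd
    have hsmall : #(A₀ ×ˢ B₀ : Set (T D × T D)) < #ι := by
      rw [mk_setProd]
      exact mul_lt_of_lt hι.inf (by simpa using hA₀s) (by simpa using hB₀s)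
    obtain ⟨g, hg⟩ := hι.bdd (i '' (A₀ ×ˢ B₀)) (lt_of_le_of_lt mk_image_le hsmall)
    obtain ⟨a, ha, b, hb, hab⟩ := hcon g
    obtain ⟨a', ha', haa'⟩ := hA₀c a ha
    obtain ⟨b', hb', hbb'⟩ := hB₀c b hb
    have h1 : a' ≤ b := (hlt a' (hA₀ ha') b hb).le
    have h2 : a ≤ b' := (hlt a ha b' (hB₀ hb')).le
    have h3 := T.squeeze haa' h1 hab
    have h4 := T.squeeze h2 hbb' hab
    have h5 : i (a', b') < g := hg _ ⟨(a', b'), ⟨ha', hb'⟩, rfl⟩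
    apply hi (a', b') ⟨ha', hb'⟩
    show a'.f _ = b'.f _
    rw [← h3 _ h5.le, ← h4 _ h5.le]
  -- step 2
  obtain ⟨ζ, hζ, hζmin⟩ := WellFounded.has_min (wellFounded_lt (α := ι)) _ hI
  have hζ' : ∀ a ∈ A, ∀ b ∈ B, ¬ ∀ j, j ≤ ζ → a.f j = b.f j := by
    intro a ha b hb h
    exact hζ ⟨a, ha, b, hb, h⟩
  have hbelow : ∀ g, ∃ p : T D × T D, g < ζ → (p.1 ∈ A ∧ p.2 ∈ B ∧ ∀ j, j ≤ g → p.1.f j = p.2.f j) := by
    intro g
    by_cases hg : g < ζ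
    · have : ∃ a ∈ A, ∃ b ∈ B, ∀ j, j ≤ g → a.f j = b.f j := by
        by_contra hcon
        exact hζmin g hcon hg
      obtain ⟨a, ha, b, hb, hab⟩ := this
      exact ⟨(a, b), fun _ => ⟨ha, hb, hab⟩⟩
    · obtain ⟨b, hb⟩ := hBne
      exact ⟨(b, b), fun h => absurd h hg⟩
  choose p hp using hbelow
  obtain ⟨b₀, hb₀⟩ := hBne
  let φ : T D := ⟨fun g => if g < ζ then (p g).1.f g else b₀.f g, fun g => by
    show (if g < ζ then (p g).1.f g else b₀.f g) ∈ D g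
    split_ifs
    · exact (p g).1.mem g
    · exact b₀.mem g⟩
  have hφ : ∀ g, g < ζ → φ.f g = (p g).1.f g := fun g hg => by simp [φ, hg]
  -- coherence
  have hcoh : ∀ a ∈ A, ∀ b ∈ B, ∀ g, g < ζ → (∀ j, j ≤ g → a.f j = b.f j) →
      ∀ j, j ≤ g → a.f j = φ.f j := by
    intro a ha b hb g hg hab j hj
    have hjζ : j < ζ := hj.trans_lt hg
    obtain ⟨h1, h2, h3⟩ := hp j hjζ
    rw [hφ j hjζ]
    have hm : max a (p j).1 ∈ A := by
      rcases max_choice a (p j).1 with h | h <;> rw [h] <;> assumption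
    have h4 := T.squeeze (le_max_left a (p j).1) (hlt _ hm b hb).le hab
    have h5 := T.squeeze (le_max_right a (p j).1) (hlt _ hm _ h2).le h3
    rw [h4 j hj, h5 j le_rfl]
  have hAp : ∀ g, g < ζ → ∀ j, j ≤ g → (p g).1.f j = φ.f j := fun g hg =>
    hcoh _ (hp g hg).1 _ (hp g hg).2.1 g hg (hp g hg).2.2
  have hBp : ∀ g, g < ζ → ∀ j, j ≤ g → (p g).2.f j = φ.f j := fun g hg j hj => by
    rw [← (hp g hg).2.2 j hj]; exact hAp g hg j hj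
  -- elements of A are not above the cone, elements of B not below
  have hAcone : ∀ a ∈ A, ∀ g, g < ζ → (∀ j, j < g → a.f j = φ.f j) → a.f g ≤ φ.f g := by
    intro a ha g hg hag
    by_contra hcon
    push Not at hcon
    have : (p g).2 < a := ⟨g, fun j hj => (hBp g hg j hj.le).trans (hag j hj).symm, by
      show (p g).2.f g < a.f g
      rw [hBp g hg g le_rfl]; exact hcon⟩
    exact absurd (hlt a ha _ (hp g hg).2.1) (not_lt.mpr this.le)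
  have hBcone : ∀ b ∈ B, ∀ g, g < ζ → (∀ j, j < g → b.f j = φ.f j) → φ.f g ≤ b.f g := by
    intro b hb g hg hbg
    by_contra hcon
    push Not at hcon
    have : b < (p g).1 := ⟨g, fun j hj => (hbg j hj).trans (hAp g hg j hj.le).symm, by
      show b.f g < (p g).1.f g
      rw [hAp g hg g le_rfl]; exact hcon⟩
    exact absurd (hlt _ (hp g hg).1 b hb) (not_lt.mpr this.le)
  -- an element of A above an element of the cone is in the cone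
  have hAup : ∀ a ∈ A, ∀ x : T D, (∀ j, j < ζ → x.f j = φ.f j) → x ≤ a →
      ∀ j, j < ζ → a.f j = φ.f j := by
    intro a ha x hx hxa
    by_contra hcon
    push Not at hcon
    obtain ⟨j, hj, hj'⟩ := hcon
    obtain ⟨i, hi1, hi2⟩ := exists_fd (x := a.f) (y := φ.f) (fun e => hj' (congrFun e j))
    have hij : i < ζ := by
      by_contra hc
      exact hj' (hi1 j (hj.trans_le (not_lt.mp hc)))
    have h1 : a.f i < φ.f i := lt_of_le_of_ne (hAcone a ha i hij hi1) hi2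
    have : a < x := ⟨i, fun k hk => (hi1 k hk).trans (hx k (hk.trans hij)).symm, by
      show a.f i < x.f i
      rw [hx i hij]; exact h1⟩
    exact absurd hxa (not_le.mpr this)
  have hBdown : ∀ b ∈ B, ∀ x : T D, (∀ j, j < ζ → x.f j = φ.f j) → b ≤ x →
      ∀ j, j < ζ → b.f j = φ.f j := by
    intro b hb x hx hxb
    by_contra hcon
    push Not at hcon
    obtain ⟨j, hj, hj'⟩ := hcon
    obtain ⟨i, hi1, hi2⟩ := exists_fd (x := b.f) (y := φ.f) (fun e => hj' (congrFun e j))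
    have hij : i < ζ := by
      by_contra hc
      exact hj' (hi1 j (hj.trans_le (not_lt.mp hc)))
    have h1 : φ.f i < b.f i := lt_of_le_of_ne (hBcone b hb i hij hi1) (Ne.symm hi2)
    have : x < b := ⟨i, fun k hk => (hx k (hk.trans hij)).trans (hi1 k hk).symm, by
      show x.f i < b.f i
      rw [hx i hij]; exact h1⟩
    exact absurd hxb (not_le.mpr this)
  -- the values at ζ
  let A' : Set L := (fun a : T D => a.f ζ) '' {a ∈ A₀ | ∀ j, j < ζ → a.f j = φ.f j}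
  let B' : Set L := (fun b : T D => b.f ζ) '' {b ∈ B₀ | ∀ j, j < ζ → b.f j = φ.f j}
  have hA's : #A' < #ι :=
    lt_of_le_of_lt mk_image_le (lt_of_le_of_lt (mk_le_mk_of_subset (Set.sep_subset _ _)) hA₀s)
  have hB's : #B' < #ι :=
    lt_of_le_of_lt mk_image_le (lt_of_le_of_lt (mk_le_mk_of_subset (Set.sep_subset _ _)) hB₀s)
  have hA'B' : ∀ a ∈ A', ∀ b ∈ B', a < b := by
    rintro _ ⟨a, ⟨ha1, ha2⟩, rfl⟩ _ ⟨b, ⟨hb1, hb2⟩, rfl⟩
    have hab := hlt a (hA₀ ha1) b (hB₀ hb1)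
    have h1 : ∀ j, j < ζ → a.f j = b.f j := fun j hj => (ha2 j hj).trans (hb2 j hj).symm
    refine lt_of_le_of_ne (T.apply_le hab.le h1) ?_
    intro he
    apply hζ' a (hA₀ ha1) b (hB₀ hb1)
    intro j hj
    rcases hj.eq_or_lt with rfl | hj
    · exact he
    · exact h1 j hj
  obtain ⟨ℓ, hℓA, hℓB⟩ := hη A' B' hA's hB's hA'B'
  have hℓD : ℓ ∉ D ζ := by
    intro hℓ
    have hxcone : ∀ j, j < ζ → (φ.upd ζ ℓ hℓ).f j = φ.f j := fun j hj => T.upd_ne _ _ hj.ne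
    have : φ.upd ζ ℓ hℓ ∈ A ∪ B := by rw [hAB]; trivial
    rcases this with hx | hx
    · obtain ⟨a, ha, hxa⟩ := hA₀c _ hx
      have hac := hAup a (hA₀ ha) _ hxcone hxa
      have h1 : (φ.upd ζ ℓ hℓ).f ζ ≤ a.f ζ :=
        T.apply_le hxa (fun j hj => (hxcone j hj).trans (hac j hj).symm)
      rw [T.upd_eq] at h1
      exact absurd (hℓA _ ⟨a, ⟨ha, hac⟩, rfl⟩) (not_lt.mpr h1)
    · obtain ⟨b, hb, hxb⟩ := hB₀c _ hx
      have hbc := hBdown b (hB₀ hb) _ hxcone hxb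
      have h1 : b.f ζ ≤ (φ.upd ζ ℓ hℓ).f ζ :=
        T.apply_le hxb (fun j hj => (hbc j hj).trans (hxcone j hj).symm)
      rw [T.upd_eq] at h1
      exact absurd (hℓB _ ⟨b, ⟨hb, hbc⟩, rfl⟩) (not_lt.mpr h1)
  have hBcone' : ∀ b ∈ B, ¬ ∀ j, j < ζ → b.f j = φ.f j := by
    intro b hb hbc
    obtain ⟨b', hb', hbb'⟩ := hB₀c b hb
    have hbc' := hBdown b' (hB₀ hb') b hbc hbb'
    apply hℓD
    exact hD ζ (hℓB _ ⟨b', ⟨hb', hbc'⟩, rfl⟩).le (b'.mem ζ)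
  have hconeA : ∀ x : T D, (∀ j, j < ζ → x.f j = φ.f j) → x ∈ A := by
    intro x hx
    have : x ∈ A ∪ B := by rw [hAB]; trivial
    rcases this with h | h
    · exact h
    · exact absurd hx (hBcone' x h)
  refine ⟨ζ, φ, ?_, ?_, ?_⟩
  · have := hBcone' b₀ hb₀
    push Not at this
    obtain ⟨j, hj, -⟩ := this
    exact ⟨j, hj⟩
  · intro g hg
    have := hBcone' _ (hp g hg).2.1
    push Not at this
    obtain ⟨j, hj, hj'⟩ := this
    refine ⟨j, ?_, hj⟩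
    by_contra hcon
    push Not at hcon
    exact hj' (hBp g hg j hcon)
  · ext x
    constructor
    · intro hx
      by_cases hxc : ∀ j, j < ζ → x.f j = φ.f j
      · exact ⟨x, hxc, le_rfl⟩
      · push Not at hxc
        obtain ⟨j, hj, hj'⟩ := hxc
        obtain ⟨i, hi1, hi2⟩ := exists_fd (x := x.f) (y := φ.f) (fun e => hj' (congrFun e j))
        have hij : i < ζ := by
          by_contra hc
          exact hj' (hi1 j (hj.trans_le (not_lt.mp hc)))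
        have h1 : x.f i < φ.f i := lt_of_le_of_ne (hAcone x hx i hij hi1) hi2
        exact ⟨φ, fun _ _ => rfl, le_of_lt ⟨i, hi1, h1⟩⟩
    · rintro ⟨y, hy, hxy⟩
      have hyA := hconeA y hy
      have : x ∈ A ∪ B := by rw [hAB]; trivial
      rcases this with h | h
      · exact h
      · exact absurd (hlt y hyA x h) (not_lt.mpr hxy)

/-- Upward points of the complement of the canonical lower part. -/
theorem T.canonical_facts
    (hmax : ∀ ζ, ∀ ℓ ∈ D ζ, ∃ ℓ' ∈ D ζ, ℓ < ℓ') (ζ : ι) (φ : T D)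
    (hne : ∃ g, g < ζ) (hlim : ∀ g, g < ζ → ∃ j, g < j ∧ j < ζ) :
    Order.cof (lowerPart ζ φ) = Order.cof (D ζ) ∧
    Order.cof ((lowerPart ζ φ)ᶜ : Set (T D))ᵒᵈ = Order.cof (Iio ζ) ∧
    (∀ x ∈ lowerPart ζ φ, ∃ y ∈ lowerPart ζ φ, x < y) ∧
    (∀ x ∈ (lowerPart ζ φ)ᶜ, ∃ y ∈ (lowerPart ζ φ)ᶜ, y < x) ∧
    (lowerPart ζ φ).Nonempty ∧ ((lowerPart ζ φ)ᶜ).Nonempty ∧
    (∀ x ∈ lowerPart ζ φ, ∀ y ∈ (lowerPart ζ φ)ᶜ, x < y) := by
  classical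
  have hsep : ∀ x ∈ lowerPart ζ φ, ∀ y ∈ (lowerPart ζ φ)ᶜ, x < y := by
    rintro x ⟨z, hz, hxz⟩ y hy
    by_contra hcon
    push Not at hcon
    exact hy ⟨z, hz, hcon.trans hxz⟩
  -- the elements just above the cone
  choose up hup1 hup2 using fun g => hmax g (φ.f g) (φ.mem g)
  let b : Iio ζ → T D := fun g => φ.upd g.1 (up g.1) (hup1 g.1)
  have hb : ∀ g, b g ∈ (lowerPart ζ φ)ᶜ := by
    rintro g ⟨y, hy, hle⟩
    have : y < b g := ⟨g.1, fun j hj => by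
      show y.f j = (φ.upd g.1 (up g.1) (hup1 g.1)).f j
      rw [T.upd_ne _ _ hj.ne]
      exact hy j (hj.trans g.2), by
      show y.f g.1 < (φ.upd g.1 (up g.1) (hup1 g.1)).f g.1
      rw [T.upd_eq, hy g.1 g.2]
      exact hup2 g.1⟩
    exact absurd hle (not_le.mpr this)
  have hbanti : ∀ g g' : Iio ζ, g < g' → b g' < b g := by
    intro g g' hgg'
    have h0 : g.1 < g'.1 := hgg'
    refine ⟨g.1, fun j hj => ?_, ?_⟩
    · show (φ.upd g'.1 (up g'.1) (hup1 g'.1)).f j = (φ.upd g.1 (up g.1) (hup1 g.1)).f j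
      rw [T.upd_ne _ _ hj.ne, T.upd_ne _ _ (hj.trans h0).ne]
    · show (φ.upd g'.1 (up g'.1) (hup1 g'.1)).f g.1 < (φ.upd g.1 (up g.1) (hup1 g.1)).f g.1
      rw [T.upd_ne _ _ h0.ne, T.upd_eq]
      exact hup2 g.1
  have hbcof : ∀ x ∈ (lowerPart ζ φ)ᶜ, ∃ g : Iio ζ, b g < x := by
    intro x hx
    have hxc : ¬ ∀ j, j < ζ → x.f j = φ.f j := fun h => hx ⟨x, h, le_rfl⟩
    push Not at hxc
    obtain ⟨j, hj, hj'⟩ := hxc
    obtain ⟨i, hi1, hi2⟩ := exists_fd (x := x.f) (y := φ.f) (fun e => hj' (congrFun e j))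
    have hij : i < ζ := by
      by_contra hc
      exact hj' (hi1 j (hj.trans_le (not_lt.mp hc)))
    have h1 : φ.f i < x.f i := by
      by_contra hcon
      push Not at hcon
      have h2 : x.f i < φ.f i := lt_of_le_of_ne hcon hi2
      exact hx ⟨φ, fun _ _ => rfl, le_of_lt ⟨i, hi1, h2⟩⟩
    obtain ⟨g, hg1, hg2⟩ := hlim i hij
    refine ⟨⟨g, hg2⟩, ⟨i, fun k hk => ?_, ?_⟩⟩
    · show (φ.upd g (up g) (hup1 g)).f k = x.f k
      rw [T.upd_ne _ _ (hk.trans hg1).ne]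
      exact (hi1 k hk).symm
    · show (φ.upd g (up g) (hup1 g)).f i < x.f i
      rw [T.upd_ne _ _ hg1.ne]
      exact h1
  -- the elements of the cone
  let a : D ζ → T D := fun ℓ => φ.upd ζ ℓ.1 ℓ.2
  have ha : ∀ ℓ, a ℓ ∈ lowerPart ζ φ := fun ℓ =>
    ⟨a ℓ, fun j hj => T.upd_ne _ _ hj.ne, le_rfl⟩
  have hamono : StrictMono a := by
    intro ℓ ℓ' h
    refine ⟨ζ, fun j hj => ?_, ?_⟩
    · show (φ.upd ζ ℓ.1 ℓ.2).f j = (φ.upd ζ ℓ'.1 ℓ'.2).f j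
      rw [T.upd_ne _ _ hj.ne, T.upd_ne _ _ hj.ne]
    · show (φ.upd ζ ℓ.1 ℓ.2).f ζ < (φ.upd ζ ℓ'.1 ℓ'.2).f ζ
      rw [T.upd_eq, T.upd_eq]
      exact h
  have hacof : ∀ x ∈ lowerPart ζ φ, ∃ ℓ : D ζ, x < a ℓ := by
    rintro x ⟨y, hy, hxy⟩
    obtain ⟨ℓ, hℓ, hlt⟩ := hmax ζ (y.f ζ) (y.mem ζ)
    refine ⟨⟨ℓ, hℓ⟩, hxy.trans_lt ⟨ζ, fun j hj => ?_, ?_⟩⟩
    · show y.f j = (φ.upd ζ ℓ hℓ).f j
      rw [T.upd_ne _ _ hj.ne]; exact hy j hj
    · show y.f ζ < (φ.upd ζ ℓ hℓ).f ζ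
      rw [T.upd_eq]; exact hlt
  refine ⟨?_, ?_, ?_, ?_, ?_, ?_, hsep⟩
  · symm
    refine Order.cof_congr_of_strictMono (f := fun ℓ : D ζ => (⟨a ℓ, ha ℓ⟩ : lowerPart ζ φ))
      (fun _ _ h => hamono h) ?_
    rintro ⟨x, hx⟩
    obtain ⟨ℓ, hℓ⟩ := hacof x hx
    exact ⟨_, ⟨ℓ, rfl⟩, hℓ.le⟩
  · symm
    refine Order.cof_congr_of_strictMono
      (f := fun g : Iio ζ => (OrderDual.toDual (⟨b g, hb g⟩ : ((lowerPart ζ φ)ᶜ : Set (T D)))))
      (fun g g' h => hbanti g g' h) ?_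
    intro x
    obtain ⟨g, hg⟩ := hbcof (OrderDual.ofDual x).1 (OrderDual.ofDual x).2
    exact ⟨_, ⟨g, rfl⟩, hg.le⟩
  · intro x hx
    obtain ⟨ℓ, hℓ⟩ := hacof x hx
    exact ⟨_, ha ℓ, hℓ⟩
  · intro x hx
    obtain ⟨g, hg⟩ := hbcof x hx
    exact ⟨_, hb g, hg⟩
  · exact ⟨φ, φ, fun _ _ => rfl, le_rfl⟩
  · obtain ⟨g, hg⟩ := hne
    exact ⟨_, hb ⟨g, hg⟩⟩

end Pool.Agent.Lib.Pe86704
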