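import Mathlib
import Pool.Agent.Lib.Pe86704.Cuts

set_option autoImplicit false
set_option linter.unusedSectionVars false

/-!
The index order and its shift invariant colouring.
-/

namespace Pool.Agent.Lib.Pe86704

open Cardinal Set Ordinal

universe u

theorem idx_ord {κ : Cardinal.{u}} (hκ : κ.IsRegular) : Idx κ.ord.ToType where
  inf := by simpa using hκ.aleph0_le
  small := fun i => by
    have h := Cardinal.mk_Iio_lt i (by simp)
    simpa using h
  bdd := by
    intro S hS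
    by_contra hcon
    push Not at hcon
    have h1 : IsCofinal S := fun b => by
      obtain ⟨s, hs, hbs⟩ := hcon b
      exact ⟨s, hs, hbs⟩
    have h2 := Order.cof_le h1
    rw [Ordinal.cof_toType, hκ.cof_ord] at h2
    have h3 : #S < κ := by simpa using hS
    exact absurd h3 (not_lt.mpr h2)

section

variable {ι : Type u} [LinearOrder ι] [WellFoundedLT ι]

/-- The ordinal of a position. -/
noncomputable def pos (ζ : ι) : Ordinal.{u} := typein (α := ι) (· < ·) ζ

theorem cof_pos (ζ : ι) : Order.cof (Iio ζ) = (pos ζ).cof := Order.cof_Iio ζ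

theorem pos_decomp {g j : ι} (h : g < j) :
    pos j = typeLT (Iic g) + typeLT (Ioo g j) := by
  let F : (Iic g : Set ι) ⊕ (Ioo g j : Set ι) → (Iio j : Set ι) := fun x =>
    match x with
    | Sum.inl a => ⟨a.1, lt_of_le_of_lt a.2 h⟩
    | Sum.inr b => ⟨b.1, b.2.2⟩
  have hinj : Function.Injective F := by
    rintro (x | x) (y | y) hxy
    · have : x.1 = y.1 := congrArg (fun z : (Iio j : Set ι) => z.1) hxy
      rw [Subtype.ext this]
    · have h1 : x.1 = y.1 := congrArg (fun z : (Iio j : Set ι) => z.1) hxy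
      have h2 : x.1 ≤ g := x.2
      exact absurd y.2.1 (not_lt.mpr (h1 ▸ h2))
    · have h1 : x.1 = y.1 := congrArg (fun z : (Iio j : Set ι) => z.1) hxy
      have h2 : y.1 ≤ g := y.2
      exact absurd x.2.1 (not_lt.mpr (h1.symm ▸ h2))
    · have : x.1 = y.1 := congrArg (fun z : (Iio j : Set ι) => z.1) hxy
      rw [Subtype.ext this]
  have hsurj : Function.Surjective F := by
    rintro ⟨y, hy⟩
    rcases le_or_gt y g with hyg | hyg
    · exact ⟨Sum.inl ⟨y, hyg⟩, rfl⟩
    · exact ⟨Sum.inr ⟨y, hyg, hy⟩, rfl⟩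
  have hrel : ∀ x y, F x < F y ↔
      Sum.Lex (fun a b : (Iic g : Set ι) => a < b) (fun a b : (Ioo g j : Set ι) => a < b) x y := by
    rintro (x | x) (y | y)
    · rw [Sum.lex_inl_inl]; exact Iff.rfl
    · refine ⟨fun _ => Sum.Lex.sep _ _, fun _ => ?_⟩
      show x.1 < y.1
      exact lt_of_le_of_lt x.2 y.2.1
    · refine ⟨fun hlt => ?_, fun hlt => ?_⟩
      · exfalso
        have h1 : x.1 < y.1 := hlt
        have h2 : y.1 ≤ g := y.2
        exact absurd (h1.trans_le h2) (not_lt.mpr x.2.1.le)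
      · exact absurd hlt Sum.lex_inr_inl
    · rw [Sum.lex_inr_inr]; exact Iff.rfl
  have e : (Sum.Lex (fun a b : (Iic g : Set ι) => a < b) (fun a b : (Ioo g j : Set ι) => a < b)) ≃r
      (fun a b : (Iio j : Set ι) => a < b) :=
    ⟨Equiv.ofBijective F ⟨hinj, hsurj⟩, fun {x y} => hrel x y⟩
  have h1 := e.ordinalType_congr
  rw [type_sum_lex] at h1
  rw [h1]
  exact (type_Iio_lt j).symm

theorem cof_Iic (g : ι) : (typeLT (Iic g)).cof = 1 := by
  rw [Ordinal.cof_type]
  exact Order.cof_eq_one_iff.mpr ⟨⟨g, le_rfl⟩, fun x => x.2⟩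

end

/-- Arithmetic behind the shift invariance. -/
theorem shift_arith {G G' τ σ ρ : Ordinal.{u}} (hG : G.cof = 1) (hρ : ρ.cof ≠ 1) (hρ0 : ρ ≠ 0)
    (hp : ∀ a b, a < ρ → b < ρ → a + b < ρ) (h : G + τ = σ + ρ) : ∃ σ', G' + τ = σ' + ρ := by
  rcases le_or_gt G σ with hGσ | hGσ
  · obtain ⟨σ₁, rfl⟩ := exists_add_of_le hGσ
    rw [add_assoc, add_right_inj] at h
    exact ⟨G' + σ₁, by rw [h, add_assoc]⟩
  · obtain ⟨ε, rfl⟩ := exists_add_of_le hGσ.le
    rw [add_assoc, add_right_inj] at h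
    have hε : ε < ρ := by
      rcases (le_self_add (a := ε) (b := τ)).eq_or_lt with h1 | h1
      · exfalso
        have h2 : ε = ρ := by rw [← h, ← h1]
        rw [h2, cof_add _ hρ0] at hG
        exact hρ hG
      · rw [← h]; exact h1
    have hτ : ρ ≤ τ := by
      by_contra hcon
      push Not at hcon
      exact absurd (hp _ _ hε hcon) (by rw [h]; exact lt_irrefl _)
    have hτ' : τ ≤ ρ := by rw [← h]; exact le_add_self
    exact ⟨G', by rw [le_antisymm hτ' hτ]⟩

theorem unique_arith {σ σ' ρ ρ' : Ordinal.{u}} (hρ0 : ρ ≠ 0) (hρ0' : ρ' ≠ 0)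
    (hp : ∀ a b, a < ρ → b < ρ → a + b < ρ) (hp' : ∀ a b, a < ρ' → b < ρ' → a + b < ρ')
    (h : σ + ρ = σ' + ρ') : ρ = ρ' := by
  have key : ∀ {σ σ' ρ ρ' : Ordinal.{u}}, ρ' ≠ 0 → (∀ a b, a < ρ → b < ρ → a + b < ρ) →
      σ ≤ σ' → σ + ρ = σ' + ρ' → ρ = ρ' := by
    intro σ σ' ρ ρ' h0 hp hle h
    obtain ⟨τ, rfl⟩ := exists_add_of_le hle
    rw [add_assoc, add_right_inj] at h
    have h1 : ρ' ≤ ρ := by rw [h]; exact le_add_self
    rcases h1.eq_or_lt with h2 | h2
    · exact h2.symm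
    · exfalso
      have h3 : ρ ≤ τ := by
        by_contra hcon
        push Not at hcon
        exact absurd (hp _ _ hcon h2) (by rw [← h]; exact lt_irrefl _)
      have h4 : τ < τ + ρ' := by
        have := (add_lt_add_iff_left τ).mpr (pos_iff_ne_zero.mpr h0)
        simpa using this
      rw [← h] at h4
      exact absurd h4 (not_lt.mpr h3)
  rcases le_total σ σ' with hle | hle
  · exact key hρ0' hp hle h
  · exact (key hρ0 hp' hle h.symm).symm

/-- The code of a pair. -/
noncomputable def E (p : Ordinal.{u} × Ordinal.{u}) : Ordinal.{u} :=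
  ω ^ (ω_ p.2 * (p.1 + 1))

theorem E_principal (p : Ordinal.{u} × Ordinal.{u}) : ∀ a b, a < E p → b < E p → a + b < E p :=
  fun _ _ ha hb => isPrincipal_add_omega0_opow _ ha hb

theorem E_ne_zero (p : Ordinal.{u} × Ordinal.{u}) : E p ≠ 0 := by
  unfold E
  exact (opow_pos _ omega0_pos).ne'

theorem E_cof {p : Ordinal.{u} × Ordinal.{u}} (h : (ℵ_ p.2).IsRegular) : (E p).cof = ℵ_ p.2 := by
  have h1 : (ω_ p.2 * (p.1 + 1)).cof = ℵ_ p.2 := by
    rw [mul_add_one, cof_add _ (omega_pos _).ne', h.cof_omega_eq]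
  have h2 : Order.IsSuccLimit (ω_ p.2 * (p.1 + 1)) := by
    rw [← Ordinal.one_lt_cof_iff, h1]
    exact one_lt_aleph0.trans_le h.aleph0_le
  unfold E
  rw [cof_map_of_isNormal (isNormal_opow one_lt_omega0) h2, h1]

theorem E_inj {p q : Ordinal.{u} × Ordinal.{u}} (hp : (ℵ_ p.2).IsRegular)
    (hq : (ℵ_ q.2).IsRegular) (h : E p = E q) : p = q := by
  have h1 : p.2 = q.2 := by
    have := congrArg Ordinal.cof h
    rw [E_cof hp, E_cof hq] at this
    exact le_antisymm (aleph_le_aleph.mp this.le) (aleph_le_aleph.mp this.ge)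
  have h2 : ω_ p.2 * (p.1 + 1) = ω_ q.2 * (q.1 + 1) := by
    unfold E at h
    exact (opow_right_inj one_lt_omega0).mp h
  rw [h1] at h2
  have h3 : p.1 + 1 = q.1 + 1 := by
    exact (isNormal_mul_right (omega_pos q.2)).strictMono.injective h2
  have h4 : p.1 = q.1 := by
    exact Order.succ_injective (by simpa using h3)
  exact Prod.ext h4 h1

end Pool.Agent.Lib.Pe86704
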