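import Mathlib
import Pool.Agent.Lib.Pe86704.Index
import Pool.Agent.Lib.Pe86704.Defs

set_option autoImplicit false
set_option linter.unusedSectionVars false

/-!
All subsets are realizable.
-/

namespace Pool.Agent.Lib.Pe86704

open Cardinal Set Ordinal

universe u

section DP

variable {ι : Type u} [LinearOrder ι] [WellFoundedLT ι]

/-- The lower set of `U` generated by the characteristic functions below `k`. -/
def DP (k : ι) : Set (U ι) := {ℓ | ∃ ξ, ξ < k ∧ ℓ < U.one ξ}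

theorem DP_lower (k : ι) : IsLowerSet (DP k) := by
  rintro x y hyx ⟨ξ, h1, h2⟩
  exact ⟨ξ, h1, lt_of_le_of_lt hyx h2⟩

theorem one_mem_DP {k : ι} (hk : ∀ g, g < k → ∃ j, g < j ∧ j < k) {ξ : ι} (h : ξ < k) :
    U.one ξ ∈ DP k := by
  obtain ⟨j, h1, h2⟩ := hk ξ h
  exact ⟨j, h2, U.one_strictMono h1⟩

theorem DP_cof {k : ι} (hk : ∀ g, g < k → ∃ j, g < j ∧ j < k) :
    Order.cof (DP k) = Order.cof (Iio k) := by
  symm
  refine Order.cof_congr_of_strictMono
    (f := fun g : Iio k => (⟨U.one g.1, one_mem_DP hk g.2⟩ : DP k))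
    (fun g g' h => U.one_strictMono h) ?_
  rintro ⟨x, ξ, h1, h2⟩
  exact ⟨_, ⟨⟨ξ, h1⟩, rfl⟩, h2.le⟩

theorem limit_of_cof {k : ι} (h : ℵ₀ ≤ Order.cof (Iio k)) :
    (∃ g, g < k) ∧ ∀ g, g < k → ∃ j, g < j ∧ j < k := by
  have h0 : Order.cof (Iio k) ≠ 0 := (aleph0_pos.trans_le h).ne'
  rw [Order.cof_ne_zero_iff] at h0
  obtain ⟨g0⟩ := h0
  refine ⟨⟨g0.1, g0.2⟩, ?_⟩
  intro g hg
  by_contra hcon
  push Not at hcon
  have h1 : Order.cof (Iio k) = 1 :=
    Order.cof_eq_one_iff.mpr ⟨⟨g, hg⟩, fun x => by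
      show x.1 ≤ g
      by_contra hx
      push Not at hx
      exact absurd x.2 (not_lt.mpr (hcon _ hx))⟩
  rw [h1] at h
  exact absurd h (not_le.mpr one_lt_aleph0)

end DP

theorem all_realizable (X : Set Ordinal.{u}) (hX : BddAbove X)
    (hreg : ∀ x ∈ X, (ℵ_ x).IsRegular) (C : Set (Ordinal.{u} × Ordinal.{u}))
    (hC : C ⊆ X ×ˢ X) : Realizable X C := by
  classical
  obtain ⟨μ, hμ⟩ := hX
  -- the index order
  let κ : Cardinal.{u} := Order.succ (max (E (μ, μ)).card (ℵ_ μ))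
  have hκ : κ.IsRegular := isRegular_succ ((aleph0_le_aleph μ).trans (le_max_right _ _))
  have hκX : ∀ x ∈ X, ℵ_ x < κ := fun x hx =>
    (aleph_le_aleph.mpr (hμ hx)).trans_lt (Order.lt_succ_of_le (le_max_right _ _))
  have hκE : ∀ p ∈ C, E p < κ.ord := by
    intro p hp
    have h1 : p.1 ≤ μ := hμ (hC hp).1
    have h2 : p.2 ≤ μ := hμ (hC hp).2
    have h3 : E p ≤ E (μ, μ) := by
      unfold E
      apply opow_le_opow_right omega0_pos
      exact mul_le_mul' (by simpa using h2) (add_le_add_left h1 1)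
    refine h3.trans_lt ?_
    rw [lt_ord]
    exact Order.lt_succ_of_le (le_max_left _ _)
  let ι : Type u := κ.ord.ToType
  have hι : Idx ι := idx_ord hκ
  have hcardι : #ι = κ := by simp [ι]
  -- positions
  have hposmk : ∀ (o : Ordinal.{u}), o < κ.ord → ∃ ζ : ι, pos ζ = o := by
    intro o ho
    have : o < typeLT ι := by rwa [type_toType]
    obtain ⟨ζ, hζ⟩ := typein_surj (α := ι) (· < ·) this
    exact ⟨ζ, hζ⟩
  -- positions of given regular cofinality
  have hkk : ∀ x : Ordinal.{u}, ∃ k : ι, x ∈ X → Order.cof (Iio k) = ℵ_ x := by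
    intro x
    by_cases hx : x ∈ X
    · obtain ⟨k, hk⟩ := hposmk (ω_ x) (by
        rw [lt_ord, card_omega]
        exact hκX x hx)
      refine ⟨k, fun _ => ?_⟩
      rw [cof_pos, hk, (hreg x hx).cof_omega_eq]
    · exact ⟨hι.nonempty.some, fun h => absurd h hx⟩
  choose kk hkk using hkk
  have hkklim : ∀ x ∈ X, ∀ g, g < kk x → ∃ j, g < j ∧ j < kk x := fun x hx =>
    (limit_of_cof (by rw [hkk x hx]; exact aleph0_le_aleph x)).2
  have hkkne : ∀ x ∈ X, ∃ g, g < kk x := fun x hx =>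
    (limit_of_cof (by rw [hkk x hx]; exact aleph0_le_aleph x)).1
  -- the colouring
  let Q : ι → (Ordinal.{u} × Ordinal.{u}) → Prop := fun ζ p =>
    p ∈ C ∧ ∃ σ, pos ζ = σ + E p
  let pick : ((Ordinal.{u} × Ordinal.{u}) → Prop) → Option (Ordinal.{u} × Ordinal.{u}) :=
    fun P => if h : ∃ p, P p then some (Classical.choose h) else none
  have hpick1 : ∀ P p, pick P = some p → P p := by
    intro P p h
    by_cases hP : ∃ p, P p
    · simp only [pick, dif_pos hP, Option.some.injEq] at h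
      rw [← h]; exact Classical.choose_spec hP
    · simp only [pick, dif_neg hP] at h
      exact absurd h (by simp)
  have hpick2 : ∀ P, (∃ p, P p) → ∃ p, pick P = some p ∧ P p := by
    intro P hP
    exact ⟨Classical.choose hP, by simp only [pick, dif_pos hP], Classical.choose_spec hP⟩
  let D : ι → Set (U ι) := fun ζ =>
    match pick (Q ζ) with
    | none => Set.univ
    | some p => DP (kk p.1)
  have hDcases : ∀ ζ, D ζ = Set.univ ∨ ∃ p, pick (Q ζ) = some p ∧ Q ζ p ∧ D ζ = DP (kk p.1) := by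
    intro ζ
    rcases hp : pick (Q ζ) with _ | p
    · left; simp only [D, hp]
    · right; exact ⟨p, rfl, hpick1 _ _ hp, by simp only [D, hp]⟩
  have hQregC : ∀ p ∈ C, (ℵ_ p.2).IsRegular := fun p hp => hreg _ (hC hp).2
  -- basic properties of D
  have hDlow : ∀ ζ, IsLowerSet (D ζ) := by
    intro ζ
    rcases hDcases ζ with h | ⟨p, -, -, h⟩ <;> rw [h]
    · exact isLowerSet_univ
    · exact DP_lower _
  have hDne : ∀ ζ, (D ζ).Nonempty := by
    intro ζ
    rcases hDcases ζ with h | ⟨p, -, hq, h⟩ <;> rw [h]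
    · exact ⟨U.one ζ, trivial⟩
    · obtain ⟨g, hg⟩ := hkkne p.1 (hC hq.1).1
      exact ⟨_, one_mem_DP (hkklim _ (hC hq.1).1) hg⟩
  have hDmax : ∀ ζ, ∀ ℓ ∈ D ζ, ∃ ℓ' ∈ D ζ, ℓ < ℓ' := by
    intro ζ
    rcases hDcases ζ with h | ⟨p, -, hq, h⟩ <;> rw [h]
    · intro ℓ _
      obtain ⟨y, hy⟩ := U.exists_gt hι ℓ
      exact ⟨y, trivial, hy⟩
    · rintro ℓ ⟨ξ, h1, h2⟩
      exact ⟨_, one_mem_DP (hkklim _ (hC hq.1).1) h1, h2⟩
  have hDmin : ∀ ζ, ∀ ℓ ∈ D ζ, ∃ ℓ' ∈ D ζ, ℓ' < ℓ := by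
    intro ζ ℓ hℓ
    obtain ⟨y, hy⟩ := U.exists_lt hι ℓ
    exact ⟨y, hDlow ζ hy.le hℓ, hy⟩
  have hDtrans : ∀ ζ, ∀ x ∈ D ζ, ∀ x' ∈ D ζ, ∃ σ : U ι ≃o U ι, σ x = x' ∧
      ∀ z, σ z ∈ D ζ ↔ z ∈ D ζ := by
    intro ζ x hx x' hx'
    rcases hDcases ζ with h | ⟨p, -, hq, h⟩
    · obtain ⟨σ, hσ⟩ := U.trans1 hι x x'
      exact ⟨σ, hσ, fun z => by rw [h]; simp⟩
    · have hm : max x x' ∈ D ζ := by
        rcases max_choice x x' with h' | h' <;> rw [h'] <;> assumption
      obtain ⟨y, hy, hlt⟩ := hDmax ζ _ hm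
      obtain ⟨σ, h1, h2⟩ := U.trans_below hι ((le_max_left x x').trans_lt hlt)
        ((le_max_right x x').trans_lt hlt)
      refine ⟨σ, h1, fun z => ?_⟩
      rcases lt_or_ge z y with hz | hz
      · have h3 : σ z < y := by
          have := σ.strictMono hz
          rwa [h2 y le_rfl] at this
        exact ⟨fun _ => hDlow ζ hz.le hy, fun _ => hDlow ζ h3.le hy⟩
      · rw [h2 z hz]
  -- shift invariance
  have hshift : ∀ g g' : ι, ∃ h : {j // g < j} ≃o {j // g' < j}, ∀ j, D (h j).1 = D j.1 := by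
    intro g g'
    obtain ⟨e⟩ := hι.shift g
    obtain ⟨e'⟩ := hι.shift g'
    have key : ∀ (g g' : ι) (h : {j // g < j} ≃o {j // g' < j}) (j : {j // g < j}) p,
        Q j.1 p → Q (h j).1 p := by
      rintro g g' h j p ⟨hp, σ, hσ⟩
      refine ⟨hp, ?_⟩
      have h1 : typeLT (Ioo g j.1) = typeLT (Ioo g' (h j).1) := by
        let F : (Ioo g j.1 : Set ι) → (Ioo g' (h j).1 : Set ι) := fun x =>
          ⟨(h ⟨x.1, x.2.1⟩).1, (h ⟨x.1, x.2.1⟩).2, h.strictMono x.2.2⟩
        have hmono : StrictMono F := fun x y hxy =>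
          h.strictMono (show (⟨x.1, x.2.1⟩ : {j // g < j}) < ⟨y.1, y.2.1⟩ from hxy)
        have hsurj : Function.Surjective F := by
          rintro ⟨y, hy1, hy2⟩
          refine ⟨⟨(h.symm ⟨y, hy1⟩).1, (h.symm ⟨y, hy1⟩).2, ?_⟩, ?_⟩
          · have : h.symm ⟨y, hy1⟩ < j := by
              rw [h.symm_apply_lt]; exact hy2
            exact this
          · apply Subtype.ext
            simp [F]
        exact (hmono.orderIsoOfSurjective F hsurj).toRelIsoLT.ordinalType_congr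
      rw [pos_decomp j.2] at hσ
      rw [pos_decomp (h j).2, ← h1]
      refine shift_arith (cof_Iic g) ?_ (E_ne_zero p) (E_principal p) hσ
      rw [E_cof (hQregC p hp)]
      exact (one_lt_aleph0.trans_le (aleph0_le_aleph _)).ne'
    refine ⟨e.trans e'.symm, fun j => ?_⟩
    have hQ : Q ((e.trans e'.symm) j).1 = Q j.1 := by
      funext p
      apply propext
      constructor
      · intro hq
        have := key g' g (e.trans e'.symm).symm _ p hq
        simpa using this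
      · exact key g g' (e.trans e'.symm) j p
    simp only [D]
    rw [hQ]
  -- the product chain
  let φ₀ : T D := ⟨fun ζ => (hDne ζ).some, fun ζ => (hDne ζ).some_mem⟩
  refine ⟨T D, inferInstance, ?_, ?_, ?_, ?_⟩
  · -- nontrivial
    obtain ⟨ζ⟩ := hι.nonempty
    obtain ⟨ℓ, hℓ, hlt⟩ := hDmax ζ _ (φ₀.mem ζ)
    refine ⟨⟨φ₀, φ₀.upd ζ ℓ hℓ, fun h => ?_⟩⟩
    have := congrArg (fun x : T D => x.f ζ) h
    simp only [T.upd_eq] at this
    rw [this] at hlt
    exact lt_irrefl _ hlt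
  · -- dense
    refine ⟨fun x y hxy => ?_⟩
    obtain ⟨i, hi1, hi2⟩ := hxy
    obtain ⟨ℓ, h1, h2⟩ := U.exists_btw hι (show x.f i < y.f i from hi2)
    have hℓ : ℓ ∈ D i := hDlow i h2.le (y.mem i)
    refine ⟨x.upd i ℓ hℓ, ⟨i, fun j hj => ?_, ?_⟩, ⟨i, fun j hj => ?_, ?_⟩⟩
    · exact (T.upd_ne _ hℓ hj.ne).symm
    · show x.f i < (x.upd i ℓ hℓ).f i
      rw [T.upd_eq]; exact h1
    · show (x.upd i ℓ hℓ).f j = y.f j
      rw [T.upd_ne _ hℓ hj.ne]; exact hi1 j hj
    · show (x.upd i ℓ hℓ).f i < y.f i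
      rw [T.upd_eq]; exact h2
  · -- 2-homogeneous
    intro a b c d hab hcd
    exact T.homog hDlow (fun x y x' y' => U.trans2 hι) hDtrans hshift hab hcd
  · -- characters
    apply subset_antisymm
    · rintro ⟨α, β⟩ ⟨⟨A, B, hcut, hA, hB⟩, hα, hβ⟩
      simp only at hA hB hα hβ
      have hAκ : Order.cof A < #ι := by rw [hA, hcardι]; exact hκX α hα
      have hBκ : Order.cof (B : Set (T D))ᵒᵈ < #ι := by rw [hB, hcardι]; exact hκX β hβ
      obtain ⟨SA, hSA1, hSA2⟩ := Order.exists_cof_eq A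
      obtain ⟨SB, hSB1, hSB2⟩ := Order.exists_cof_eq (B : Set (T D))ᵒᵈ
      let A₀ : Set (T D) := Subtype.val '' SA
      let B₀ : Set (T D) := (fun x : (B : Set (T D))ᵒᵈ => (OrderDual.ofDual x).1) '' SB
      have hA₀ : A₀ ⊆ A := by rintro _ ⟨x, -, rfl⟩; exact x.2
      have hB₀ : B₀ ⊆ B := by rintro _ ⟨x, -, rfl⟩; exact (OrderDual.ofDual x).2
      have hA₀s : #A₀ < #ι := lt_of_le_of_lt mk_image_le (by rw [hSA2]; exact hAκ)
      have hB₀s : #B₀ < #ι := lt_of_le_of_lt mk_image_le (by rw [hSB2]; exact hBκ)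
      have hA₀c : ∀ a ∈ A, ∃ a' ∈ A₀, a ≤ a' := by
        intro a ha
        obtain ⟨x, hx, hax⟩ := hSA1 ⟨a, ha⟩
        exact ⟨x.1, ⟨x, hx, rfl⟩, hax⟩
      have hB₀c : ∀ b ∈ B, ∃ b' ∈ B₀, b' ≤ b := by
        intro b hb
        obtain ⟨x, hx, hbx⟩ := hSB1 (OrderDual.toDual ⟨b, hb⟩)
        exact ⟨(OrderDual.ofDual x).1, ⟨x, hx, rfl⟩, hbx⟩
      rcases hcut.cover with hAB | ⟨r, hr1, hr2, hr3⟩
      · obtain ⟨ζ, φ, hζ1, hζ2, hAeq⟩ := T.gap_canonical hι hDlow
          (fun S S' h1 h2 h3 => U.eta hι S S' h1 h2 h3) A B A₀ B₀ hAB hcut.lt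
          hcut.nonempty_right hA₀ hB₀ hA₀c hB₀c hA₀s hB₀s
        have hBeq : B = (lowerPart ζ φ)ᶜ := by
          rw [← hAeq]
          ext x
          constructor
          · intro hx hxA
            exact lt_irrefl _ (hcut.lt x hxA x hx)
          · intro hx
            have : x ∈ A ∪ B := by rw [hAB]; trivial
            exact this.resolve_left hx
        obtain ⟨hc1, hc2, -⟩ := T.canonical_facts hDmax ζ φ hζ1 hζ2
        rw [hAeq, hc1] at hA
        rw [hBeq, hc2] at hB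
        rcases hDcases ζ with hu | ⟨p, -, hq, hd⟩
        · exfalso
          -- cofinality of U is large
          have h1 : Order.cof (D ζ) < #ι := by rw [hA, hcardι]; exact hκX α hα
          obtain ⟨S, hS1, hS2⟩ := Order.exists_cof_eq (D ζ)
          have hS3 : #(Subtype.val '' S : Set (U ι)) < #ι :=
            lt_of_le_of_lt mk_image_le (by rw [hS2]; exact h1)
          obtain ⟨x, hx, -⟩ := U.eta hι (Subtype.val '' S) ∅ hS3
            (by simpa using aleph0_pos.trans_le hι.inf) (by simp)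
          obtain ⟨y, hy, hxy⟩ := hS1 ⟨x, by rw [hu]; trivial⟩
          have h3 : y.1 < x := hx y.1 ⟨y, hy, rfl⟩
          have h4 : x ≤ y.1 := hxy
          exact absurd h3 (not_lt.mpr h4)
        · have hpX := hC hq.1
          have h1 : (ℵ_ α : Cardinal.{u}) = ℵ_ p.1 := by
            rw [← hA, hd, DP_cof (hkklim _ hpX.1), hkk _ hpX.1]
          have h2 : (ℵ_ β : Cardinal.{u}) = ℵ_ p.2 := by
            obtain ⟨σ, hσ⟩ := hq.2
            rw [← hB, cof_pos, hσ, cof_add _ (E_ne_zero p), E_cof (hQregC p hq.1)]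
          have h1' : α = p.1 := le_antisymm (aleph_le_aleph.mp h1.le) (aleph_le_aleph.mp h1.ge)
          have h2' : β = p.2 := le_antisymm (aleph_le_aleph.mp h2.le) (aleph_le_aleph.mp h2.ge)
          rw [h1', h2']
          exact hq.1
      · exfalso
        obtain ⟨y, hyr, hy⟩ := T.point_large hι hDmin r A₀
          (fun x hx => hr1 x (hA₀ hx)) hA₀s
        have hyA : y ∈ A := by
          have : y ∈ A ∪ {r} ∪ B := by rw [hr3]; trivial
          rcases this with (h | h) | h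
          · exact h
          · exact absurd hyr (by rw [h]; exact lt_irrefl _)
          · exact absurd (hr2 y h) (not_lt.mpr hyr.le)
        obtain ⟨a', ha', hya'⟩ := hA₀c y hyA
        exact absurd (hy a' ha') (not_lt.mpr hya')
    · intro p hp
      have hpX := hC hp
      refine ⟨?_, hpX⟩
      obtain ⟨ζ, hζ⟩ := hposmk (E p) (hκE p hp)
      have hcofζ : Order.cof (Iio ζ) = ℵ_ p.2 := by
        rw [cof_pos, hζ, E_cof (hQregC p hp)]
      obtain ⟨hne, hlim⟩ := limit_of_cof (k := ζ) (by rw [hcofζ]; exact aleph0_le_aleph _)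
      obtain ⟨p', hp', hq'⟩ := hpick2 (Q ζ) ⟨p, hp, 0, by rw [hζ, zero_add]⟩
      have hpp' : p' = p := by
        obtain ⟨σ, hσ⟩ := hq'.2
        have h1 : E p' = E p := by
          refine unique_arith (σ := σ) (σ' := 0) (E_ne_zero _) (E_ne_zero _) (E_principal _)
            (E_principal _) ?_
          rw [← hσ, hζ, zero_add]
        exact E_inj (hQregC _ hq'.1) (hQregC _ hp) h1
      have hDζ : D ζ = DP (kk p.1) := by
        simp only [D, hp', hpp']
      obtain ⟨hc1, hc2, hc3, hc4, hc5, hc6, hc7⟩ :=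
        T.canonical_facts hDmax ζ φ₀ hne hlim
      refine ⟨lowerPart ζ φ₀, (lowerPart ζ φ₀)ᶜ,
        ⟨hc5, hc6, hc7, hc3, hc4, Or.inl (Set.union_compl_self _)⟩, ?_, ?_⟩
      · rw [hc1, hDζ, DP_cof (hkklim _ hpX.1), hkk _ hpX.1]
      · rw [hc2, hcofζ]

end Pool.Agent.Lib.Pe86704
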